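import Pool.Agent.TH806.N4.Defs2

set_option autoImplicit false

/-!
N4 project, third part: the constant of the fourth moment in the windows, and the final statements with the
constant `1/(2π²)`.
-/

namespace Pool.Agent.TH806.N4

open Finset Filter Topology MeasureTheory Complex MonoidAlgebra
open Pool.Agent.W184.NZ
open Pool.Agent.TH806
open Pool.Agent.H306R2.SM (om cl Yf)
open Pool.Agent.H262R4.TM (Rng Ck)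
open Pool.Agent.H448R2.GC (cu cs ker XX)

noncomputable section

/-- `Σ_{m,n ≤ X} d(mn)/(mn)` -/
def S1 (X : ℝ) : ℝ := ∑ m ∈ Icc 1 ⌊X⌋₊, ∑ n ∈ Icc 1 ⌊X⌋₊, ((m * n).divisors.card : ℝ) / ((m:ℝ) * n)

/-- the kernel `(m,n)/(mn)` -/
def gk (m n : ℕ) : ℝ := (Nat.gcd m n : ℝ) / ((m:ℝ) * n)

/-- `log ((m,n)²/(mn))` -/
def gl (m n : ℕ) : ℝ := Real.log ((Nat.gcd m n : ℝ) ^ 2 / ((m:ℝ) * n))

/-- `d(mn) = Σ_{g | (m,n)} μ(g) d(m/g) d(n/g)` gives `6/π² (log²X/2)²` -/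
def P_S1 : Prop := ∃ C : ℝ, 0 < C ∧ ∀ X : ℝ, 1 ≤ X →
  |S1 X - 3 / (2 * Real.pi ^ 2) * Real.log X ^ 4| ≤ C * (1 + Real.log X) ^ 3

/-- `m = ga`, `n = gb`, `(a,b) = 1` gives `6/π² ∫_0^{log X} (L s² - s³) ds` -/
def P_S2 : Prop := ∃ C : ℝ, 0 < C ∧ ∀ X L : ℝ, 1 ≤ X → 1 ≤ L → Real.log X ≤ L →
  |(∑ m ∈ Icc 1 ⌊X⌋₊, ∑ n ∈ Icc 1 ⌊X⌋₊, gk m n * (L + gl m n)) -
    6 / Real.pi ^ 2 * (L * Real.log X ^ 3 / 3 - Real.log X ^ 4 / 4)| ≤ C * L ^ 3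

/-- `(m,n) = Σ_{d | m, d | n} φ(d)` -/
def P_S3 : Prop := ∃ C : ℝ, 0 < C ∧ ∀ X Y L : ℝ, 1 / 2 ≤ Y → Y ≤ X → 1 ≤ L → Real.log X ≤ L →
  ∑ m ∈ Ioc ⌊Y⌋₊ ⌊X⌋₊, ∑ n ∈ Ioc ⌊Y⌋₊ ⌊X⌋₊, gk m n ≤ C * (L * (1 + Real.log (X / Y)) ^ 2)

/-- the second moment of zeta times a Dirichlet polynomial of length up to `T^{41/80}` -/
def P_TWM : Prop := ∃ C : ℝ, 0 < C ∧ ∀ᶠ T : ℝ in atTop, ∀ κ : ℕ, Rng T κ → ∀ (f : ℕ → ℝ) (M : ℕ),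
  (∀ n, |f n| ≤ 1) → (M : ℝ) ≤ T ^ (41 / 80 : ℝ) →
    |(∫ t in Set.Ioi (0:ℝ), wz κ T t * ‖DP (fun n => ((f n : ℝ) : ℂ)) M t‖ ^ 2) -
      ∑ m ∈ Icc 1 M, ∑ n ∈ Icc 1 M, f m * f n * (gk m n * (Real.log T + gl m n))| ≤ C * Real.log T ^ 3

/-- the mean of `conj ζ²` times the square of a Dirichlet polynomial of length up to `T^θ`, `θ < 1/2` -/
def P_FM1 : Prop := ∀ θ : ℝ, 0 < θ → θ < 1 / 2 → ∃ C : ℝ, 0 < C ∧ ∀ᶠ T : ℝ in atTop, ∀ κ : ℕ, Rng T κ →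
  ∀ (f : ℕ → ℝ) (M : ℕ), (∀ n, |f n| ≤ 1) → (M : ℝ) ≤ T ^ θ →
    |(∫ t in Set.Ioi (0:ℝ), om κ (κ / T) t * ((starRingEnd ℂ) (riemannZeta (cl t)) ^ 2 *
        DP (fun n => ((f n : ℝ) : ℂ)) M t ^ 2).re) -
      ∑ m ∈ Icc 1 M, ∑ n ∈ Icc 1 M, f m * f n * (((m * n).divisors.card : ℝ) / ((m:ℝ) * n))| ≤ C

/-- the splitting of the fourth moment in the windows -/
def P_AS1 : Prop := ∀ η : ℝ, 0 < η → η ≤ 1 / 200 → ∃ (k : ℕ) (C : ℝ), 1 ≤ k ∧ 0 < C ∧ ∀ᶠ T : ℝ in atTop,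
  ∀ κ : ℕ, Rng T κ → ∀ c D1 D2 : ℝ, c = η * Real.log T / ((k:ℝ) + 1) → D1 = (1 / 2 - 2 * η) * Real.log T →
    D2 = Real.log (T / (2 * Real.pi)) - D1 - η * Real.log T →
    |W 4 κ T - (2 * (∫ t in Set.Ioi (0:ℝ), om κ (κ / T) t *
        ((starRingEnd ℂ) (riemannZeta (cl t)) ^ 2 * cs (k + 1) c D1 (cl t) ^ 2).re) +
      2 * (∫ t in Set.Ioi (0:ℝ), wz κ T t * ‖cs (k + 1) c D2 (cl t)‖ ^ 2) -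
      ∫ t in Set.Ioi (0:ℝ), wz κ T t * ‖cs (k + 1) c D2 (cl t) - cs (k + 1) c D1 (cl t)‖ ^ 2)| ≤
      C * Real.log T ^ 3

/-- the fourth moment in the windows -/
def P_ING : Prop := ∀ ε : ℝ, 0 < ε → ∀ᶠ T : ℝ in atTop, ∀ κ : ℕ, Rng T κ →
  |W 4 κ T - 1 / (2 * Real.pi ^ 2) * Real.log T ^ 4| ≤ ε * Real.log T ^ 4

/-- sharp bounds near the exponent four in the intervals `[T, T + H]` -/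
def P_SHT : Prop := ∀ ε : ℝ, 0 < ε → ∃ δ : ℝ, 0 < δ ∧ ∀ α : ℝ, 0 ≤ α → α < 1 / 2 → ∀ᶠ T : ℝ in atTop,
  ∀ H : ℝ, T / Real.log T ^ α ≤ H → H ≤ T →
    (∀ β : ℝ, 4 - δ ≤ β → β ≤ 4 →
      ∫ t in T..(T + H), Xz t ^ β ≤ (1 / (2 * Real.pi ^ 2) + ε) * (H * Real.log T ^ (β ^ 2 / 4))) ∧
    (∀ β : ℝ, 4 ≤ β → β ≤ 4 + δ →
      (1 / (2 * Real.pi ^ 2) - ε) * (H * Real.log T ^ (β ^ 2 / 4)) ≤ ∫ t in T..(T + H), Xz t ^ β)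

/-- sharp bounds near the exponent four for the average of the problem -/
def P_ABS : Prop := ∀ ε : ℝ, 0 < ε → ∃ δ : ℝ, 0 < δ ∧ ∀ x : ℝ, ∀ᶠ T : ℝ in atTop,
  (∀ β : ℝ, 4 - δ ≤ β → β ≤ 4 → aM β x T ≤ (1 / (2 * Real.pi ^ 2) + ε) * Real.log T ^ (β ^ 2 / 4)) ∧
  (∀ β : ℝ, 4 ≤ β → β ≤ 4 + δ → (1 / (2 * Real.pi ^ 2) - ε) * Real.log T ^ (β ^ 2 / 4) ≤ aM β x T)

end

end Pool.Agent.TH806.N4
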