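import Pool.Agent.TH806.N4.Rel
import Pool.Agent.TH806.N4.Defs3
import Pool.Agent.TH266.N4_S2S3
import Pool.Agent.TH461.N4_S1
import Pool.Agent.TH757.N4_ING
import Pool.Agent.TH73.N4_SHT
import Pool.Agent.TH822.N4_TWM
import Pool.Agent.TH445.N4_FM1
import Pool.Agent.TH384.N4_AS1

set_option autoImplicit false

/-!
N4: assembly of the final statements with the constant `1/(2π²)`.
-/

namespace Pool.Agent.TH806.N4

theorem a_AS1 : P_AS1 := TH384.N4_AS1.t_AS1 TH822.N4_MGKR.t_MG TH822.N4_MGKR.t_KR a_AFP a_TB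

theorem a_FM1 : P_FM1 := TH445.N4_FM1.t_FM1 TH384.N4_FM.t_FM

theorem a_ING : P_ING := TH757.N4_ING.t_ING TH822.N4_MGKR.t_KR a_AS1 TH822.N4_TWM.t_TWM a_FM1
  TH461.N4_S1.t_S1 TH266.N4_S2S3.t_S2 TH266.N4_S2S3.t_S3

theorem a_SHT : P_SHT ∧ P_ABS := TH73.N4_SHT.t_SHT a_ING a_WIN

end Pool.Agent.TH806.N4
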