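import Pool.Agent.TH806.N4.Hol

set_option autoImplicit false

/-!
N4: decoupling of the multiplier on the torus (Schwarz lemma in a scaling parameter).
-/

namespace Pool.Agent.TH806.N4

open Finset MeasureTheory Complex MonoidAlgebra Filter Topology
open Pool.Agent.W184.NZ
open Pool.Agent.TH806

noncomputable section

variable {N : ℕ}

lemma geo_conj (v : ℂ) (t : ℝ) : ‖(1 - v * ec (-t))⁻¹‖ = ‖(1 - (starRingEnd ℂ) v * ec t)⁻¹‖ := by
  have h : (1 - (starRingEnd ℂ) v * ec t)⁻¹ = (starRingEnd ℂ) ((1 - v * ec (-t))⁻¹) := by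
    rw [map_inv₀, map_sub, map_one, map_mul, ec_conj, neg_neg]
  rw [h, Complex.norm_conj]

/-- the absolute bound of the functional -/
lemma FT_abs {c y a : ℝ} {J Rs : ℕ} {g : ℕ → DA} {φ : ℕ → ℂ → ℝ} {G : DA} (hG : MG c y J Rs a g φ G)
    {Q : Ix N → Fin 4 → ℂ} {α u1 u2 : Ix N → ℂ} (hα : ∀ p, ‖α p‖ < 1) (h1 : ∀ p, ‖u1 p‖ < 1) (h2 : ∀ p, ‖u2 p‖ < 1)
    (hQ : ∀ p j, ‖Q p j‖ < 1)
    (hle : ∀ p t, ‖1 - α p ^ 2‖ * ‖D4 (Q p) t‖ ≤
      ‖Pk (α p) t‖ * (‖(1 - u1 p * ec t)⁻¹‖ * ‖(1 - u2 p * ec t)⁻¹‖)) :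
    ‖(∏ p : Ix N, (1 - α p ^ 2)) * FT Q G‖ ≤
      1 / 2 * (∫ θ, HP α u1 θ * (evt θ G).re ∂(TT N)) + 1 / 2 * ∫ θ, HP α u2 θ * (evt θ G).re ∂(TT N) := by
  have hevc : Continuous fun θ : Ix N → ℝ => (evt θ G).re := Complex.continuous_re.comp (evt_cont G)
  have hevb : ∀ θ : Ix N → ℝ, |(evt θ G).re| ≤ l1 G := fun θ =>
    (Complex.abs_re_le_norm _).trans (evt_norm_le hG.bd θ)
  have hi : ∀ {u : Ix N → ℂ}, (∀ p, ‖u p‖ < 1) → Integrable (fun θ => HP α u θ * (evt θ G).re) (TT N) := by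
    intro u hu
    refine Integrable.of_bound (C := (∏ p : Ix N, (2 * (1 - ‖α p‖)⁻¹ * (1 - ‖u p‖)⁻¹ ^ 2)) * l1 G)
      ((HP_cont hα hu).mul hevc).aestronglyMeasurable (Filter.Eventually.of_forall fun θ => ?_)
    rw [norm_mul, Real.norm_eq_abs, Real.norm_eq_abs, abs_of_nonneg (HP_nonneg _ _ _)]
    refine mul_le_mul ?_ (hevb θ) (abs_nonneg _) ?_
    · unfold HP
      refine prod_le_prod (fun p _ => by positivity) fun p _ => ?_
      have e1 := Pk_bdd (hα p) (θ p)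
      have e2 := geo_bdd (hu p) (θ p)
      have e3 : ‖(1 - u p * ec (θ p))⁻¹‖ ^ 2 ≤ (1 - ‖u p‖)⁻¹ ^ 2 := pow_le_pow_left₀ (norm_nonneg _) e2 2
      exact mul_le_mul e1 e3 (by positivity) ((norm_nonneg _).trans e1)
    · refine prod_nonneg fun p _ => ?_
      have := hα p
      have := hu p
      have a1 : 0 ≤ (1 - ‖α p‖)⁻¹ := inv_nonneg.mpr (by linarith)
      positivity
  have step : ‖(∏ p : Ix N, (1 - α p ^ 2)) * FT Q G‖ ≤
      ∫ θ, (1 / 2 * (HP α u1 θ * (evt θ G).re) + 1 / 2 * (HP α u2 θ * (evt θ G).re)) ∂(TT N) := by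
    unfold FT
    rw [← integral_const_mul]
    refine norm_integral_le_of_norm_le (((hi h1).const_mul _).add ((hi h2).const_mul _))
      (Filter.Eventually.of_forall fun θ => ?_)
    have hev : ‖evt θ G‖ = (evt θ G).re := by
      rw [hG.evt_eq, Complex.norm_real, Complex.ofReal_re, Real.norm_eq_abs,
        abs_of_nonneg (prod_nonneg fun i _ => (hG.blk i).nn _)]
    rw [norm_mul, norm_mul, hev, ← mul_assoc]
    have h3 : ‖∏ p : Ix N, (1 - α p ^ 2)‖ * ‖TD Q θ‖ ≤ 1 / 2 * HP α u1 θ + 1 / 2 * HP α u2 θ := by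
      have e1 : ‖∏ p : Ix N, (1 - α p ^ 2)‖ * ‖TD Q θ‖ ≤ (∏ p : Ix N, ‖Pk (α p) (θ p)‖) *
          ((∏ p : Ix N, ‖(1 - u1 p * ec (θ p))⁻¹‖) * ∏ p : Ix N, ‖(1 - u2 p * ec (θ p))⁻¹‖) := by
        unfold TD
        rw [norm_prod, norm_prod, ← prod_mul_distrib, ← prod_mul_distrib, ← prod_mul_distrib]
        exact prod_le_prod (fun _ _ => by positivity) fun p _ => hle p (θ p)
      refine e1.trans ?_
      have e2 : HP α u1 θ = (∏ p : Ix N, ‖Pk (α p) (θ p)‖) * (∏ p : Ix N, ‖(1 - u1 p * ec (θ p))⁻¹‖) ^ 2 := by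
        unfold HP; rw [prod_mul_distrib, prod_pow]
      have e3 : HP α u2 θ = (∏ p : Ix N, ‖Pk (α p) (θ p)‖) * (∏ p : Ix N, ‖(1 - u2 p * ec (θ p))⁻¹‖) ^ 2 := by
        unfold HP; rw [prod_mul_distrib, prod_pow]
      rw [e2, e3]
      set A := ∏ p : Ix N, ‖Pk (α p) (θ p)‖
      set B1 := ∏ p : Ix N, ‖(1 - u1 p * ec (θ p))⁻¹‖
      set B2 := ∏ p : Ix N, ‖(1 - u2 p * ec (θ p))⁻¹‖
      have hA : 0 ≤ A := prod_nonneg fun _ _ => norm_nonneg _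
      have h4 : B1 * B2 ≤ 1 / 2 * B1 ^ 2 + 1 / 2 * B2 ^ 2 := by nlinarith [sq_nonneg (B1 - B2)]
      calc A * (B1 * B2) ≤ A * (1 / 2 * B1 ^ 2 + 1 / 2 * B2 ^ 2) := mul_le_mul_of_nonneg_left h4 hA
        _ = _ := by ring
    have h5 := mul_le_mul_of_nonneg_right h3 (hG.re_nonneg θ)
    linarith
  refine step.trans (le_of_eq ?_)
  rw [integral_add ((hi h1).const_mul _) ((hi h2).const_mul _), integral_const_mul, integral_const_mul]

/-- the family of parameters -/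
def QS4 (N : ℕ) (y : ℝ) (σ : Fin 4 → ℂ) (ξ : ℂ) (p : Ix N) (j : Fin 4) : ℂ := Sh N y (σ j) ξ p

/-- the prefactor -/
def cz (N : ℕ) (y : ℝ) (z ξ : ℂ) : ℂ := ∏ p : Ix N, (1 - Sh N y z ξ p ^ 2)

/-- the holomorphic function of the scaling parameter -/
def eF (N : ℕ) (y : ℝ) (σ : Fin 4 → ℂ) (z : ℂ) (G : DA) (ξ : ℂ) : ℂ :=
  cz N y z ξ * (FT (QS4 N y σ ξ) G - (lam w2 G : ℂ) * FT (QS4 N y σ ξ) 1)

lemma D4_diff {U : Set ℂ} (y : ℝ) (σ : Fin 4 → ℂ) (p : Ix N) (t : ℝ)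
    (hU : ∀ ξ ∈ U, ∀ j, ‖Sh N y (σ j) ξ p‖ < 1) :
    DifferentiableOn ℂ (fun ξ => D4 (QS4 N y σ ξ p) t) U := by
  have h : ∀ (j : Fin 4) (x : ℝ), DifferentiableOn ℂ (fun ξ => (1 - Sh N y (σ j) ξ p * ec x)⁻¹) U := by
    intro j x
    refine DifferentiableOn.inv ?_ ?_
    · exact ((differentiable_const _).sub ((Sh_diff y (σ j) p).mul_const _)).differentiableOn
    · intro ξ hξ
      have h1 : ‖Sh N y (σ j) ξ p * ec x‖ < 1 := by rw [norm_mul, ec_norm, mul_one]; exact hU ξ hξ j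
      exact one_sub_ne h1
  unfold D4 QS4
  exact (((h 0 t).mul (h 1 t)).mul ((h 2 (-t)).mul (h 3 (-t))))

lemma FT_diff {U : Set ℂ} (hUo : IsOpen U) (y : ℝ) (σ : Fin 4 → ℂ) {r M : ℝ} (hr : r < 1)
    (hU : ∀ ξ ∈ U, ∀ p j, ‖Sh N y (σ j) ξ p‖ ≤ r) {G : DA} (hG : Bd M G) :
    DifferentiableOn ℂ (fun ξ => FT (QS4 N y σ ξ) G) U := by
  unfold FT
  refine diffOn_int hUo (TT N) (fun ξ θ => TD (QS4 N y σ ξ) θ * evt θ G)
    (fun _ => (∏ _p : Ix N, (1 - r)⁻¹ ^ 4) * l1 G) (integrable_const _) ?_ ?_ ?_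
  · intro ξ hξ
    exact ((TD_cont fun p j => lt_of_le_of_lt (hU ξ hξ p j) hr).mul (evt_cont G)).aestronglyMeasurable
  · refine Filter.Eventually.of_forall fun θ => ?_
    refine DifferentiableOn.mul_const ?_ _
    unfold TD
    refine DifferentiableOn.fun_finsetProd fun p _ => ?_
    exact D4_diff y σ p (θ p) fun ξ hξ j => lt_of_le_of_lt (hU ξ hξ p j) hr
  · refine Filter.Eventually.of_forall fun θ ξ hξ => ?_
    rw [norm_mul]
    refine mul_le_mul (TD_bdd hr (hU ξ hξ) θ) (evt_norm_le hG θ) (norm_nonneg _) ?_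
    have : 0 ≤ (1 - r)⁻¹ := inv_nonneg.mpr (by linarith)
    positivity

lemma cz_diff (y : ℝ) (z : ℂ) : Differentiable ℂ (cz N y z) := by
  unfold cz
  have h : ∀ p : Ix N, Differentiable ℂ fun ξ => 1 - Sh N y z ξ p ^ 2 := fun p =>
    (differentiable_const _).sub ((Sh_diff y z p).pow 2)
  intro ξ
  exact DifferentiableAt.fun_finsetProd fun p _ => h p ξ

end

end Pool.Agent.TH806.N4
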