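import Pool.Agent.TH806.N4.DL

set_option autoImplicit false

/-!
N4: decoupling of the multiplier on the torus, the proof of the statement of the second part.
-/

namespace Pool.Agent.TH806.N4

open Finset MeasureTheory Complex MonoidAlgebra Filter Topology
open Pool.Agent.W184.NZ
open Pool.Agent.TH806

noncomputable section

variable {N : ℕ}

/-- the trivial multiplier -/
lemma MG.one {c y a : ℝ} {J Rs : ℕ} {g : ℕ → DA} {φ : ℕ → ℂ → ℝ} {G : DA} (h : MG c y J Rs a g φ G) :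
    MG c y J Rs 0 (fun _ => 1) (fun _ _ => 1) 1 where
  bl := h.bl
  blk := fun i =>
    { cont := continuous_const
      nn := fun _ => zero_le_one
      up := fun z => by
        have h1 : 0 < Real.exp (-((RR Rs i : ℕ):ℝ)) := Real.exp_pos _
        have h2 : 0 ≤ 2 * Real.exp (-((RR Rs i : ℕ):ℝ)) * Real.exp (4 * ‖z‖) := by positivity
        have h3 : Real.exp (2 * 0 * z.re) = 1 := by rw [mul_zero, zero_mul, Real.exp_zero]
        rw [h3]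
        nlinarith
      evl := fun t => by rw [map_one, Complex.ofReal_one]
      evt := fun N θ => by rw [map_one, Complex.ofReal_one]
      mem := one_mem _ }
  eq := by simp
  bd := Bd.one.mono (Real.one_le_exp (by
    have := h.bl.y1
    have h1 : 0 ≤ Real.log y := Real.log_nonneg (by linarith)
    positivity))
  l1 := by
    rw [l1_one]
    exact Real.one_le_exp (by
      have := h.bl.y1
      have h1 : 0 ≤ Real.log y := Real.log_nonneg (by linarith)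
      positivity)

/-- the support of the multiplier -/
lemma MG.sup {c y a : ℝ} {J Rs : ℕ} {g : ℕ → DA} {φ : ℕ → ℂ → ℝ} {G : DA} (h : MG c y J Rs a g φ G)
    (hy : y < N) {x : ℕ × ℕ} (hx : x ∈ G.coeff.support) :
    Nz N x ∧ ∀ p : ℕ, p.Prime → (p ∣ x.1 ∨ p ∣ x.2) → (p:ℝ) ≤ y := by
  have hy1 := h.bl.y1
  set U := (range J).biUnion (II y) with hU
  have hG : G ∈ SA (MI U) := by
    rw [h.eq]
    refine prod_mem fun i hi => ?_
    exact SA_mono (subset_biUnion_of_mem _ hi) (h.blk i).mem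
  have hxm : x ∈ MI U := hG x hx
  have hp : ∀ p : ℕ, p.Prime → (p ∣ x.1 ∨ p ∣ x.2) → (p:ℝ) ≤ y := by
    intro p hp hd
    have h1 := hxm.2.2 p hp hd
    rw [hU, mem_biUnion] at h1
    obtain ⟨i, _, hi⟩ := h1
    exact (mem_II.mp hi).2.2.2.trans (bb_le (by linarith) i)
  refine ⟨⟨hxm.1, hxm.2.1, fun p hpp hd => ?_⟩, hp⟩
  have := hp p hpp hd
  exact_mod_cast this.trans_lt hy

lemma Fam.cj {q : ℕ → ℝ} {α u : Ix N → ℂ} (h : Fam N q α u) : Fam N q α (fun p => (starRingEnd ℂ) (u p)) where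
  q0 := h.q0
  q3 := h.q3
  ha := h.ha
  na := h.na
  hu := fun p => by
    obtain ⟨W, hW, h1, h2⟩ := h.hu p
    have e : (starRingEnd ℂ) (u p) - ((xh p.1 : ℝ) : ℂ) * (starRingEnd ℂ) W =
        (starRingEnd ℂ) (u p - ((xh p.1 : ℝ) : ℂ) * W) := by
      rw [map_sub, map_mul, Complex.conj_ofReal]
    refine ⟨(starRingEnd ℂ) W, by rw [Complex.norm_conj]; exact hW, ?_, ?_⟩
    · rw [e, Complex.norm_conj]; exact h1
    · rw [e, Complex.norm_conj]; exact h2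
  nu := fun p => by rw [Complex.norm_conj]; exact h.nu p

/-- the two types of parameters -/
def Ty (z s1 s2 : ℂ) (σ : Fin 4 → ℂ) : Prop :=
  σ = ![s1, z, s2, z] ∨ (z = 0 ∧ σ = ![s1, s2, 0, 0])

lemma Ty.mem {z s1 s2 : ℂ} {σ : Fin 4 → ℂ} (h : Ty z s1 s2 σ) (j : Fin 4) : σ j = z ∨ σ j = s1 ∨ σ j = s2 := by
  rcases h with rfl | ⟨rfl, rfl⟩
  · fin_cases j
    · exact Or.inr (Or.inl rfl)
    · exact Or.inl rfl
    · exact Or.inr (Or.inr rfl)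
    · exact Or.inl rfl
  · fin_cases j
    · exact Or.inr (Or.inl rfl)
    · exact Or.inr (Or.inr rfl)
    · exact Or.inl rfl
    · exact Or.inl rfl

lemma Pk_norm (α : ℂ) (t : ℝ) : ‖Pk α t‖ = ‖1 - α ^ 2‖ * (‖(1 - α * ec t)⁻¹‖ * ‖(1 - α * ec (-t))⁻¹‖) := by
  unfold Pk
  rw [norm_div, norm_mul, norm_inv, norm_inv, div_eq_mul_inv, mul_inv]

lemma Ty.hle {z s1 s2 : ℂ} {σ : Fin 4 → ℂ} (h : Ty z s1 s2 σ) (y : ℝ) (ξ : ℂ) :
    ∃ u2 : Ix N → ℂ, ((u2 = Sh N y s2 ξ) ∨ (u2 = fun p => (starRingEnd ℂ) (Sh N y s2 ξ p))) ∧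
    ∀ (p : Ix N) (t : ℝ), ‖1 - Sh N y z ξ p ^ 2‖ * ‖D4 (QS4 N y σ ξ p) t‖ ≤
      ‖Pk (Sh N y z ξ p) t‖ * (‖(1 - Sh N y s1 ξ p * ec t)⁻¹‖ * ‖(1 - u2 p * ec t)⁻¹‖) := by
  rcases h with rfl | ⟨rfl, rfl⟩
  · refine ⟨_, Or.inr rfl, fun p t => le_of_eq ?_⟩
    rw [← geo_conj, Pk_norm]
    unfold D4 QS4
    rw [norm_mul, norm_mul, norm_mul]
    show ‖1 - Sh N y z ξ p ^ 2‖ * (‖(1 - Sh N y s1 ξ p * ec t)⁻¹‖ * ‖(1 - Sh N y z ξ p * ec t)⁻¹‖ *
      (‖(1 - Sh N y s2 ξ p * ec (-t))⁻¹‖ * ‖(1 - Sh N y z ξ p * ec (-t))⁻¹‖)) = _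
    ring
  · refine ⟨_, Or.inl rfl, fun p t => le_of_eq ?_⟩
    rw [Pk_norm]
    have e : ‖(1 - Sh N y 0 ξ p * ec (-t))⁻¹‖ = ‖(1 - Sh N y 0 ξ p * ec t)⁻¹‖ := by
      rw [geo_conj, Sh_zero_s, Complex.conj_ofReal]
    unfold D4 QS4
    rw [norm_mul, norm_mul, norm_mul]
    show ‖1 - Sh N y 0 ξ p ^ 2‖ * (‖(1 - Sh N y s1 ξ p * ec t)⁻¹‖ * ‖(1 - Sh N y s2 ξ p * ec t)⁻¹‖ *
      (‖(1 - Sh N y 0 ξ p * ec (-t))⁻¹‖ * ‖(1 - Sh N y 0 ξ p * ec (-t))⁻¹‖)) = _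
    rw [e]; ring

/-- one functional, trivial bound -/
lemma eF_bd {C0 Cq B c y L a : ℝ} {J Rs : ℕ} {g : ℕ → DA} {φ : ℕ → ℂ → ℝ} {G : DA}
    (hC : ∀ (y L a : ℝ) (N J Rs : ℕ) (g : ℕ → DA) (φ : ℕ → ℂ → ℝ) (G : DA)
      (q : ℕ → ℝ) (α u : Ix N → ℂ), MG c y J Rs a g φ G → |a| ≤ 1 / 16 → Fam N q α u →
      (∀ S : Finset ℕ, S ⊆ Nat.primesBelow N → ∑ p ∈ S, q p / p ≤ Cq) → 1 ≤ L →
      (∀ p : ℕ, p < N → Real.log p ≤ 3 * L) → Real.log y ≤ L → y < N →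
      ∫ θ, HP α u θ * (evt θ G).re ∂(TT N) ≤ C0 * L ^ 3 * EV J y a)
    (hG : MG c y J Rs a g φ G) (ha : |a| ≤ 1 / 16) (hlam : |lam w2 G| ≤ B * EV J y a) (hL : 1 ≤ L)
    (hyL : Real.log y ≤ L) (hN : ∀ p : ℕ, p < N → Real.log p ≤ 3 * L) (hyN : y < N)
    {z s1 s2 : ℂ} {σ : Fin 4 → ℂ} (hσ : Ty z s1 s2 σ) (ξ : ℂ) {q : ℕ → ℝ}
    (h1 : Fam N q (Sh N y z ξ) (Sh N y s1 ξ)) (h2 : Fam N q (Sh N y z ξ) (Sh N y s2 ξ))
    (hq : ∀ S : Finset ℕ, S ⊆ Nat.primesBelow N → ∑ p ∈ S, q p / p ≤ Cq) :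
    ‖eF N y σ z G ξ‖ ≤ C0 * (1 + B) * L ^ 3 * EV J y a := by
  obtain ⟨u2, hu2, hle⟩ := hσ.hle (N := N) y ξ
  have hF2 : Fam N q (Sh N y z ξ) u2 := by
    rcases hu2 with rfl | rfl
    · exact h2
    · exact h2.cj
  have hα : ∀ p, ‖Sh N y z ξ p‖ < 1 := fun p => lt_of_le_of_lt (h1.la p) (by norm_num)
  have hu1' : ∀ p, ‖Sh N y s1 ξ p‖ < 1 := fun p => lt_of_le_of_lt (h1.lu p) (by norm_num)
  have hu2' : ∀ p, ‖u2 p‖ < 1 := fun p => lt_of_le_of_lt (hF2.lu p) (by norm_num)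
  have hs2' : ∀ p, ‖Sh N y s2 ξ p‖ < 1 := fun p => lt_of_le_of_lt (h2.lu p) (by norm_num)
  have hQ : ∀ p j, ‖QS4 N y σ ξ p j‖ < 1 := by
    intro p j
    unfold QS4
    rcases hσ.mem j with h | h | h <;> rw [h]
    · exact hα p
    · exact hu1' p
    · exact hs2' p
  have hE : EV J y 0 = 1 := by unfold EV; simp
  have key : ∀ {a' : ℝ} {g' : ℕ → DA} {φ' : ℕ → ℂ → ℝ} {G' : DA}, MG c y J Rs a' g' φ' G' → |a'| ≤ 1 / 16 →
      ‖cz N y z ξ * FT (QS4 N y σ ξ) G'‖ ≤ C0 * L ^ 3 * EV J y a' := by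
    intro a' g' φ' G' hG' ha'
    have e := FT_abs hG' hα hu1' hu2' hQ hle
    have e1 := hC y L a' N J Rs g' φ' G' q _ _ hG' ha' h1 hq hL hN hyL hyN
    have e2 := hC y L a' N J Rs g' φ' G' q _ _ hG' ha' hF2 hq hL hN hyL hyN
    unfold cz
    linarith
  have k1 := key hG ha
  have k2 := key hG.one (by norm_num)
  rw [hE, mul_one] at k2
  have e3 : eF N y σ z G ξ = cz N y z ξ * FT (QS4 N y σ ξ) G -
      (lam w2 G : ℂ) * (cz N y z ξ * FT (QS4 N y σ ξ) 1) := by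
    unfold eF; ring
  rw [e3]
  refine (norm_sub_le _ _).trans ?_
  rw [norm_mul (lam w2 G : ℂ), Complex.norm_real, Real.norm_eq_abs]
  have h5 : |lam w2 G| * ‖cz N y z ξ * FT (QS4 N y σ ξ) 1‖ ≤ (B * EV J y a) * (C0 * L ^ 3) :=
    mul_le_mul hlam k2 (norm_nonneg _) ((abs_nonneg _).trans hlam)
  nlinarith

/-- vanishing at the origin -/
lemma eF_zero (hD4 : P_D4) {c y a : ℝ} {J Rs : ℕ} {g : ℕ → DA} {φ : ℕ → ℂ → ℝ} {G : DA}
    (hG : MG c y J Rs a g φ G) (hyN : y < N) (σ : Fin 4 → ℂ) (z : ℂ)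
    (h1 : ∀ p : Ix N, ∀ j, ‖Sh N y (σ j) 0 p‖ < 1) : eF N y σ z G 0 = 0 := by
  unfold eF
  rw [FT_van hD4 (Q := QS4 N y σ 0) (fun p j => h1 p j) (fun x hx => (hG.sup hyN hx).1)
    (fun x hx p hd j => ?_), sub_self, mul_zero]
  unfold QS4
  exact Sh_at_zero _ ((hG.sup hyN hx).2 p.1 (Nat.mem_primesBelow.mp p.2).2 hd)

/-- the Schwarz lemma -/
theorem eF_main (hD4 : P_D4) (c B : ℝ) : ∃ C : ℝ, 0 < C ∧ ∀ (y L a : ℝ) (N J Rs : ℕ) (g : ℕ → DA) (φ : ℕ → ℂ → ℝ)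
    (G : DA) (σ : Fin 4 → ℂ) (z s1 s2 : ℂ) (m : ℝ), MG c y J Rs a g φ G → |a| ≤ 1 / 16 →
    |lam w2 G| ≤ B * EV J y a → 1 ≤ L → Real.log y ≤ L → (∀ p : ℕ, p < N → Real.log p ≤ 3 * L) → y < N →
    ‖z‖ ≤ 1 / (20 * L) → Adm L s1 → Adm L s2 → Ty z s1 s2 σ → 0 < m → ‖z‖ ≤ m → ‖s1‖ ≤ m → ‖s2‖ ≤ m →
    ‖eF N y σ z G 1‖ ≤ C * L ^ 3 * EV J y a * (Real.log y * m) := by
  obtain ⟨C1, hC10, hC1⟩ := qL_sum
  obtain ⟨C2, hC20, hC2⟩ := qy_sum
  obtain ⟨C0, hC0, hC⟩ := tor_abs c (C1 + C2)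
  refine ⟨200 * (C0 * (1 + |B|)), by positivity, ?_⟩
  intro y L a N J Rs g φ G σ z s1 s2 m hG ha hlam hL hyL hN hyN hz hs1 hs2 hσ hm hzm hs1m hs2m
  have hy1 := hG.bl.y1
  have hEV : 0 < EV J y a := Real.exp_pos _
  have hlam' : |lam w2 G| ≤ |B| * EV J y a := hlam.trans (mul_le_mul_of_nonneg_right (le_abs_self B) hEV.le)
  have hly : 1 ≤ Real.log y := by
    rw [Real.le_log_iff_exp_le (by linarith)]
    have := Real.exp_one_lt_d9
    linarith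
  set M : ℝ := C0 * (1 + |B|) * L ^ 3 * EV J y a with hM
  have hM0 : 0 < M := by positivity
  set ρ : ℝ := 1 / (200 * Real.log y * m) with hρ
  have hρ0 : 0 < ρ := by positivity
  have hgoal : 200 * (C0 * (1 + |B|)) * L ^ 3 * EV J y a * (Real.log y * m) = M / ρ := by
    rw [hM, hρ]; field_simp
  rw [hgoal]
  -- bound at the scale `y`
  have hb : ∀ ξ : ℂ, ‖ξ‖ < ρ → Fam N (qy y L) (Sh N y z ξ) (Sh N y s1 ξ) ∧
      Fam N (qy y L) (Sh N y z ξ) (Sh N y s2 ξ) := by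
    intro ξ hξ
    have h3 : ∀ w : ℂ, ‖w‖ ≤ m → ‖ξ‖ * ‖w‖ * Real.log y ≤ 1 / 200 := by
      intro w hw
      have h4 : ‖ξ‖ * ‖w‖ * Real.log y ≤ ρ * m * Real.log y := by gcongr
      have h5 : ρ * m * Real.log y = 1 / 200 := by rw [hρ]; field_simp
      linarith
    exact ⟨fam_Sh (by linarith) hL hN hz hs1 (h3 z hzm) (h3 s1 hs1m),
      fam_Sh (by linarith) hL hN hz hs2 (h3 z hzm) (h3 s2 hs2m)⟩
  have hbd : ∀ ξ : ℂ, ‖ξ‖ < ρ → ‖eF N y σ z G ξ‖ ≤ M := by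
    intro ξ hξ
    obtain ⟨h1, h2⟩ := hb ξ hξ
    exact eF_bd hC hG ha hlam' hL hyL hN hyN hσ ξ h1 h2
      (fun S hS => (hC2 N y L (by linarith) hL hN S hS).trans (by linarith))
  by_cases hρ1 : ρ ≤ 1
  · -- trivial bound
    have e : ‖eF N y σ z G 1‖ ≤ M := by
      have f1 : Fam N (qL L) (Sh N y z 1) (Sh N y s1 1) := by
        have h := fam_par (N := N) (L := L) (z := z) (δ := s1.re) (τ := s1.im) ⟨hL, hN, hz, hs1.1, hs1.2⟩
        have e1 : (Sh N y z 1 : Ix N → ℂ) = ap N z := funext fun p => Sh_one_ap y z p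
        have e2 : (Sh N y s1 1 : Ix N → ℂ) = ub N (wp s1.re s1.im) := by
          funext p
          rw [← Sh_one_ub y s1.re s1.im p, Complex.re_add_im]
        rw [e1, e2]; exact h
      have f2 : Fam N (qL L) (Sh N y z 1) (Sh N y s2 1) := by
        have h := fam_par (N := N) (L := L) (z := z) (δ := s2.re) (τ := s2.im) ⟨hL, hN, hz, hs2.1, hs2.2⟩
        have e1 : (Sh N y z 1 : Ix N → ℂ) = ap N z := funext fun p => Sh_one_ap y z p
        have e2 : (Sh N y s2 1 : Ix N → ℂ) = ub N (wp s2.re s2.im) := by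
          funext p
          rw [← Sh_one_ub y s2.re s2.im p, Complex.re_add_im]
        rw [e1, e2]; exact h
      exact eF_bd hC hG ha hlam' hL hyL hN hyN hσ 1 f1 f2
        (fun S hS => (hC1 N L hL hN S hS).trans (by linarith))
    refine e.trans ?_
    rw [le_div_iff₀ hρ0]
    nlinarith
  · push Not at hρ1
    have hsh : ∀ ξ ∈ Metric.ball (0:ℂ) ρ, ∀ p j, ‖Sh N y (σ j) ξ p‖ ≤ 84 / 100 := by
      intro ξ hξ p j
      obtain ⟨h1, h2⟩ := hb ξ (mem_ball_zero_iff.mp hξ)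
      rcases hσ.mem j with h | h | h <;> rw [h]
      · exact h1.la p
      · exact (h1.lu p).trans (by norm_num)
      · exact (h2.lu p).trans (by norm_num)
    have hdiff : DifferentiableOn ℂ (eF N y σ z G) (Metric.ball 0 ρ) := by
      have d1 := FT_diff (N := N) Metric.isOpen_ball y σ (r := 84 / 100) (by norm_num) hsh hG.bd
      have d2 := FT_diff (N := N) Metric.isOpen_ball y σ (r := 84 / 100) (by norm_num) hsh hG.one.bd
      exact ((cz_diff y z).differentiableOn).mul (d1.sub (d2.const_mul _))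
    have h0 : eF N y σ z G 0 = 0 := eF_zero hD4 hG hyN σ z fun p j =>
      lt_of_le_of_lt (hsh 0 (Metric.mem_ball_self hρ0) p j) (by norm_num)
    have hmaps : Set.MapsTo (eF N y σ z G) (Metric.ball 0 ρ) (Metric.closedBall (eF N y σ z G 0) M) := by
      intro ξ hξ
      rw [h0, mem_closedBall_zero_iff]
      exact hbd ξ (mem_ball_zero_iff.mp hξ)
    have h1 := Complex.dist_le_div_mul_dist_of_mapsTo_ball hdiff hmaps
      (z := (1:ℂ)) (by rw [mem_ball_zero_iff, norm_one]; exact hρ1)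
    rw [h0, dist_zero_right, dist_zero_right, norm_one, mul_one] at h1
    exact h1

/-- the second moment functional -/
lemma F2_eq (N : ℕ) (y L : ℝ) (z : ℂ) (v1 v2 : ℝ) (G : DA) :
    F2 N L z v1 v2 G = cz N y z 1 * FT (QS4 N y (![((1 / L : ℝ) : ℂ) + (v1 : ℂ) * I, z,
      ((1 / L : ℝ) : ℂ) - (v2 : ℂ) * I, z]) 1) G := by
  unfold F2 FT
  rw [← integral_const_mul]
  refine integral_congr_ae (Filter.Eventually.of_forall fun θ => ?_)
  simp only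
  rw [← mul_assoc (cz N y z 1)]
  congr 1
  unfold ZT PP cz TD
  rw [map_prod, ← prod_mul_distrib, ← prod_mul_distrib, ← prod_mul_distrib]
  refine prod_congr rfl fun p _ => ?_
  have e1 : (starRingEnd ℂ) (1 - ub N (wp (1 / L) v2) p * ec (θ p))⁻¹ =
      (1 - Sh N y (((1 / L : ℝ) : ℂ) - (v2 : ℂ) * I) 1 p * ec (-(θ p)))⁻¹ := by
    rw [map_inv₀, map_sub, map_one, map_mul, ec_conj, Sh_one_conj]
  rw [e1, ← Sh_one_ub y (1 / L) v1 p, ← Sh_one_ap y z p]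
  unfold D4 QS4 Pk
  show _ = (1 - Sh N y z 1 p ^ 2) * ((1 - Sh N y (((1 / L : ℝ) : ℂ) + (v1 : ℂ) * I) 1 p * ec (θ p))⁻¹ *
    (1 - Sh N y z 1 p * ec (θ p))⁻¹ * ((1 - Sh N y (((1 / L : ℝ) : ℂ) - (v2 : ℂ) * I) 1 p * ec (-(θ p)))⁻¹ *
    (1 - Sh N y z 1 p * ec (-(θ p)))⁻¹))
  generalize (1 - Sh N y (((1 / L : ℝ) : ℂ) + (v1 : ℂ) * I) 1 p * ec (θ p))⁻¹ = A1
  generalize (1 - Sh N y (((1 / L : ℝ) : ℂ) - (v2 : ℂ) * I) 1 p * ec (-(θ p)))⁻¹ = A2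
  rw [div_eq_mul_inv, mul_inv]
  ring

/-- the first moment functional -/
lemma F1_eq (N : ℕ) (y L : ℝ) (v1 v2 : ℝ) (G : DA) :
    F1 N L v1 v2 G = FT (QS4 N y (![((1 / L : ℝ) : ℂ) + (v1 : ℂ) * I, ((1 / L : ℝ) : ℂ) + (v2 : ℂ) * I, 0, 0]) 1) G := by
  unfold F1 FT
  refine integral_congr_ae (Filter.Eventually.of_forall fun θ => ?_)
  simp only
  congr 1
  unfold ZT TD
  rw [map_prod, ← prod_pow, ← prod_mul_distrib, ← prod_mul_distrib]
  refine prod_congr rfl fun p _ => ?_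
  have e0 : ub N (1 / 2) p = ((xh p.1 : ℝ) : ℂ) := by
    unfold ub
    rw [← half_eq (by have := ix_two p; omega)]
  have e1 : (starRingEnd ℂ) (1 - ub N (1 / 2) p * ec (θ p))⁻¹ = (1 - Sh N y 0 1 p * ec (-(θ p)))⁻¹ := by
    rw [map_inv₀, map_sub, map_one, map_mul, ec_conj, e0, Complex.conj_ofReal, Sh_zero_s]
  rw [e1, ← Sh_one_ub y (1 / L) v1 p, ← Sh_one_ub y (1 / L) v2 p]
  unfold D4 QS4
  show _ = (1 - Sh N y (((1 / L : ℝ) : ℂ) + (v1 : ℂ) * I) 1 p * ec (θ p))⁻¹ *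
    (1 - Sh N y (((1 / L : ℝ) : ℂ) + (v2 : ℂ) * I) 1 p * ec (θ p))⁻¹ *
    ((1 - Sh N y 0 1 p * ec (-(θ p)))⁻¹ * (1 - Sh N y 0 1 p * ec (-(θ p)))⁻¹)
  ring

/-- Mertens product from below -/
lemma inv_cz : ∃ C : ℝ, 0 < C ∧ ∀ (N : ℕ) (y L : ℝ), 1 ≤ L → (∀ p : ℕ, p < N → Real.log p ≤ 3 * L) →
    1 ≤ C * L * ‖cz N y 0 1‖ := by
  obtain ⟨C1, hC10, hC1⟩ := gap_sum
  obtain ⟨C2, hC20, hC2⟩ := err_sum
  set C3 : ℝ := 2 + (-Real.log (Real.log 3) + C1) + C2 with hC3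
  refine ⟨3 * Real.exp C3, by positivity, ?_⟩
  intro N y L hL hN
  have hlog3 : Real.log 3 ≤ 3 * L := by
    have : Real.log 3 ≤ 3 - 1 := Real.log_le_sub_one_of_pos (by norm_num)
    linarith
  have hcz : ‖cz N y 0 1‖ = ∏ p ∈ Nat.primesBelow N, (1 - 1 / (p:ℝ)) := by
    unfold cz
    rw [norm_prod, ← Finset.prod_coe_sort (Nat.primesBelow N) (fun p : ℕ => (1 - 1 / (p:ℝ)))]
    refine prod_congr rfl fun p _ => ?_
    rw [Sh_zero_s, ← Complex.ofReal_pow, xh_sq (by have := ix_two p; omega), ← Complex.ofReal_one,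
      ← Complex.ofReal_sub, Complex.norm_real, Real.norm_eq_abs, abs_of_nonneg]
    have h2 : (2:ℝ) ≤ p.1 := by exact_mod_cast ix_two p
    have h3 : (1:ℝ) / p.1 ≤ 1 / 2 := by gcongr
    linarith
  have hpt : ∀ p ∈ Nat.primesBelow N, 1 ≤ (1 - 1 / (p:ℝ)) * Real.exp (1 / (p:ℝ) + 2 * (p:ℝ) ^ (-(3 / 2 : ℝ))) := by
    intro p hp
    have hp2 : (2:ℝ) ≤ p := by exact_mod_cast (Nat.mem_primesBelow.mp hp).2.two_le
    have h1 : 1 / ((p:ℝ) - 1) ≤ 1 / (p:ℝ) + 2 * (p:ℝ) ^ (-(3 / 2 : ℝ)) := by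
      have h4 : (p:ℝ) ^ (-(2:ℝ)) ≤ (p:ℝ) ^ (-(3 / 2 : ℝ)) :=
        Real.rpow_le_rpow_of_exponent_le (by linarith) (by norm_num)
      have h5 : (p:ℝ) ^ (-(2:ℝ)) = 1 / (p:ℝ) ^ 2 := by
        rw [Real.rpow_neg (by linarith)]; norm_num
      have h6 : 1 / ((p:ℝ) - 1) ≤ 1 / (p:ℝ) + 2 * (1 / (p:ℝ) ^ 2) := by
        have h7 : 0 < (p:ℝ) - 1 := by linarith
        rw [div_le_iff₀ h7]
        have h8 : (1 / (p:ℝ) + 2 * (1 / (p:ℝ) ^ 2)) * ((p:ℝ) - 1) = 1 + (p - 2) / (p:ℝ) ^ 2 := by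
          field_simp; ring
        rw [h8]
        have : 0 ≤ ((p:ℝ) - 2) / (p:ℝ) ^ 2 := by
          apply div_nonneg <;> nlinarith
        linarith
      linarith
    have h2 : 1 + 1 / ((p:ℝ) - 1) ≤ Real.exp (1 / (p:ℝ) + 2 * (p:ℝ) ^ (-(3 / 2 : ℝ))) := by
      have := Real.add_one_le_exp (1 / ((p:ℝ) - 1))
      have h3 := Real.exp_le_exp.mpr h1
      linarith
    have h3 : (1 - 1 / (p:ℝ)) * (1 + 1 / ((p:ℝ) - 1)) = 1 := by
      have h7 : (p:ℝ) - 1 ≠ 0 := by linarith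
      field_simp; ring
    have h4 : 0 ≤ 1 - 1 / (p:ℝ) := by
      have : (1:ℝ) / p ≤ 1 / 2 := by gcongr
      linarith
    calc (1:ℝ) = (1 - 1 / (p:ℝ)) * (1 + 1 / ((p:ℝ) - 1)) := h3.symm
      _ ≤ _ := mul_le_mul_of_nonneg_left h2 h4
  have hprod : 1 ≤ ‖cz N y 0 1‖ * Real.exp (∑ p ∈ Nat.primesBelow N, (1 / (p:ℝ) + 2 * (p:ℝ) ^ (-(3 / 2 : ℝ)))) := by
    rw [hcz, Real.exp_sum, ← prod_mul_distrib]
    calc (1:ℝ) = ∏ p ∈ Nat.primesBelow N, (1:ℝ) := by simp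
      _ ≤ _ := prod_le_prod (fun _ _ => zero_le_one) hpt
  have hsum : ∑ p ∈ Nat.primesBelow N, (1 / (p:ℝ) + 2 * (p:ℝ) ^ (-(3 / 2 : ℝ))) ≤ Real.log (3 * L) + C3 := by
    rw [sum_add_distrib]
    have h1 : ∑ p ∈ Nat.primesBelow N, 2 * (p:ℝ) ^ (-(3 / 2 : ℝ)) ≤ C2 := by
      refine le_trans (sum_le_sum fun p hp => ?_) (hC2 N L hL hN _ (Finset.Subset.refl _))
      have h4 : 0 ≤ (p:ℝ) ^ (-(3 / 2 : ℝ)) := Real.rpow_nonneg (Nat.cast_nonneg _) _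
      have h6 : 0 ≤ Real.log p := Real.log_natCast_nonneg p
      have h7 : 0 ≤ 25 / L * (Real.log p / p) := by positivity
      linarith
    have h2 := hC1 3 le_rfl N L hL hN hlog3
    have h3 : ∑ p ∈ Nat.primesBelow N, (1:ℝ) / p ≤
        (∑ p ∈ (Nat.primesBelow N).filter (fun p : ℕ => (3:ℝ) < (p:ℝ)), (1:ℝ) / p) + 2 := by
      rw [← sum_filter_add_sum_filter_not (Nat.primesBelow N) (fun p : ℕ => (3:ℝ) < (p:ℝ))]
      have h4 : ∑ p ∈ (Nat.primesBelow N).filter (fun p : ℕ => ¬ (3:ℝ) < (p:ℝ)), (1:ℝ) / p ≤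
          ∑ p ∈ range 4, (1:ℝ) / p := by
        refine sum_le_sum_of_subset_of_nonneg ?_ fun p _ _ => by positivity
        intro p hp
        rw [mem_filter] at hp
        rw [mem_range]
        have := hp.2
        push Not at this
        have h5 : p ≤ 3 := by exact_mod_cast this
        omega
      have h5 : ∑ p ∈ range 4, (1:ℝ) / p ≤ 2 := by
        simp only [sum_range_succ, sum_range_zero]
        norm_num
      linarith
    rw [hC3]; linarith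
  calc (1:ℝ) ≤ ‖cz N y 0 1‖ * Real.exp (∑ p ∈ Nat.primesBelow N, (1 / (p:ℝ) + 2 * (p:ℝ) ^ (-(3 / 2 : ℝ)))) := hprod
    _ ≤ ‖cz N y 0 1‖ * Real.exp (Real.log (3 * L) + C3) :=
        mul_le_mul_of_nonneg_left (Real.exp_le_exp.mpr hsum) (norm_nonneg _)
    _ = 3 * Real.exp C3 * L * ‖cz N y 0 1‖ := by
        rw [Real.exp_add, Real.exp_log (by linarith)]; ring

theorem t_DL (hD4 : P_D4) : P_DL := by
  intro c B
  obtain ⟨C1, hC10, hC1⟩ := eF_main hD4 c B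
  obtain ⟨C2, hC20, hC2⟩ := inv_cz
  refine ⟨C1 + C1 * C2, by positivity, ?_⟩
  intro y L a N J Rs g φ G hG _ ha hlam hL hyL hN hyN v1 v2
  have hy1 := hG.bl.y1
  have hL0 : 0 < L := by linarith
  have hly : 0 ≤ Real.log y := Real.log_nonneg (by linarith)
  have hEV : 0 < EV J y a := Real.exp_pos _
  have hv1 : 0 ≤ L * |v1| := by positivity
  have hv2 : 0 ≤ L * |v2| := by positivity
  set X : ℝ := (1 + L * |v1|) * (1 + L * |v2|) with hX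
  have hX1 : 1 + L * |v1| ≤ X := by rw [hX]; nlinarith
  have hX2 : 1 + L * |v2| ≤ X := by rw [hX]; nlinarith
  have hX0 : 0 < X := by linarith
  set m : ℝ := X / L with hm
  have hm0 : 0 < m := by positivity
  have hn1 : ∀ (v : ℝ), 1 + L * |v| ≤ X → ‖((1 / L : ℝ) : ℂ) + (v : ℂ) * I‖ ≤ m := by
    intro v hv
    refine (norm_add_le _ _).trans ?_
    rw [norm_mul, Complex.norm_I, mul_one, Complex.norm_real, Complex.norm_real, Real.norm_eq_abs, Real.norm_eq_abs,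
      abs_of_pos (by positivity : 0 < 1 / L), hm, le_div_iff₀ hL0]
    have : (1 / L + |v|) * L = 1 + L * |v| := by field_simp
    rw [this]; exact hv
  have hn2 : ∀ (v : ℝ), 1 + L * |v| ≤ X → ‖((1 / L : ℝ) : ℂ) - (v : ℂ) * I‖ ≤ m := by
    intro v hv
    have := hn1 (-v) (by rw [abs_neg]; exact hv)
    rw [Complex.ofReal_neg, neg_mul, ← sub_eq_add_neg] at this
    exact this
  have hA1 : ∀ v : ℝ, Adm L (((1 / L : ℝ) : ℂ) + (v : ℂ) * I) := by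
    intro v
    constructor
    · simp; linarith
    · simp
      rw [inv_eq_one_div]
      gcongr
      norm_num
  have hA2 : ∀ v : ℝ, Adm L (((1 / L : ℝ) : ℂ) - (v : ℂ) * I) := by
    intro v
    have := hA1 (-v)
    rw [Complex.ofReal_neg, neg_mul, ← sub_eq_add_neg] at this
    exact this
  constructor
  · have h := hC1 y L a N J Rs g φ G _ 0 _ _ m hG ha hlam hL hyL hN hyN (by rw [norm_zero]; positivity)
      (hA1 v1) (hA1 v2) (Or.inr ⟨rfl, rfl⟩) hm0 (by rw [norm_zero]; exact hm0.le) (hn1 v1 hX1) (hn1 v2 hX2)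
    have hcz := hC2 N y L hL hN
    rw [F1_eq N y L v1 v2 G, F1_eq N y L v1 v2 1]
    unfold eF at h
    rw [norm_mul] at h
    set D := ‖FT (QS4 N y (![((1 / L : ℝ) : ℂ) + (v1 : ℂ) * I, ((1 / L : ℝ) : ℂ) + (v2 : ℂ) * I, 0, 0]) 1) G -
      (lam w2 G : ℂ) * FT (QS4 N y (![((1 / L : ℝ) : ℂ) + (v1 : ℂ) * I, ((1 / L : ℝ) : ℂ) + (v2 : ℂ) * I, 0, 0]) 1) 1‖
      with hD
    have hD0 : 0 ≤ D := norm_nonneg _
    calc D = 1 * D := (one_mul _).symm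
      _ ≤ (C2 * L * ‖cz N y 0 1‖) * D := mul_le_mul_of_nonneg_right hcz hD0
      _ = C2 * L * (‖cz N y 0 1‖ * D) := by ring
      _ ≤ C2 * L * (C1 * L ^ 3 * EV J y a * (Real.log y * m)) := mul_le_mul_of_nonneg_left h (by positivity)
      _ = C1 * C2 * Real.log y * L ^ 3 * EV J y a * X := by rw [hm]; field_simp
      _ ≤ (C1 + C1 * C2) * Real.log y * L ^ 3 * EV J y a * X := by
          have : 0 ≤ C1 * (Real.log y * L ^ 3 * EV J y a * X) := by positivity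
          nlinarith
  · intro z hz
    have hzm : ‖z‖ ≤ m := by
      refine hz.trans ?_
      rw [hm]
      have h20 : 1 / (20 * L) ≤ 1 / L := by
        apply one_div_le_one_div_of_le hL0; linarith
      refine h20.trans ?_
      gcongr
      linarith
    have h := hC1 y L a N J Rs g φ G _ z _ _ m hG ha hlam hL hyL hN hyN hz
      (hA1 v1) (hA2 v2) (Or.inl rfl) hm0 hzm (hn1 v1 hX1) (hn2 v2 hX2)
    rw [F2_eq N y L z v1 v2 G, F2_eq N y L z v1 v2 1]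
    unfold eF at h
    have e : ∀ (u A1 A2 w : ℂ), u * A1 - w * (u * A2) = u * (A1 - w * A2) := by intros; ring
    rw [e]
    refine h.trans ?_
    have e2 : C1 * L ^ 3 * EV J y a * (Real.log y * m) = C1 * Real.log y * L ^ 2 * EV J y a * X := by
      rw [hm]; field_simp
    rw [e2]
    have : 0 ≤ C1 * C2 * (Real.log y * L ^ 2 * EV J y a * X) := by positivity
    nlinarith

end

end Pool.Agent.TH806.N4
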