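import Pool.Agent.TH806.Fin
import Pool.Agent.TH806.AFE

set_option autoImplicit false

/-!
N4 project (helper806, MP_f9aece_nt): the moments of zeta with exponents near `4`, relative to the fourth moment.
Definitions and the statements of the independent parts.

Goal: for every `ε > 0` there is `δ > 0` with
`E |ζ|^β ≤ (1+ε) (log T)^(β²/4-4) E |ζ|^4` for `4-δ ≤ β ≤ 4` and
`E |ζ|^β ≥ (1-ε) (log T)^(β²/4-4) E |ζ|^4` for `4 ≤ β ≤ 4+δ`, `T` large.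

`om κ (κ/T)` is the Gamma density with mean about `T`, `Rng T κ` is `log²T ≤ κ ≤ 4 log²T`, `cl t = 1/2+it`,
`Xz t = |ζ(1/2+it)|`, `wz κ T t = om κ (κ/T) t |ζ(1/2+it)|²`.
-/

namespace Pool.Agent.TH806.N4

open Finset Filter Topology MeasureTheory Complex MonoidAlgebra
open Pool.Agent.W184.NZ
open Pool.Agent.TH806
open Pool.Agent.H306R2.SM (om cl Yf)
open Pool.Agent.H262R4.TM (Rng Ck)
open Pool.Agent.H448R2.GC (cu cs ker XX)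

noncomputable section

/-! ### the weight of the fourth moment -/

/-- the factor of one prime, `m` the difference of the two exponents: the Fourier coefficients of
`|1 - p^{-1/2} e(θ)|^{-4}` are proportional to `p^{-|m|/2} (1 + |m| (p-1)/(p+1))` -/
def q4 (p : ℕ) (m : ℤ) : ℝ := 1 + (m.natAbs : ℝ) * (((p:ℝ) - 1) / ((p:ℝ) + 1))

/-- the weight of the twisted fourth moment -/
def w2 (x : ℕ × ℕ) : ℝ :=
  w1 x * ∏ p ∈ (x.1 * x.2).primeFactors, q4 p ((x.1.factorization p : ℤ) - x.2.factorization p)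

/-- Fourier coefficients of `|1 - r e(θ)|^{-4}` -/
def P_D4 : Prop := ∀ (r : ℝ), 0 ≤ r → r < 1 → ∀ m : ℤ,
  ∫ θ, ec (m * θ) * ((‖(1 - (r : ℂ) * ec θ)⁻¹‖ ^ 4 : ℝ) : ℂ) ∂uu =
    ((r ^ m.natAbs * ((1 + r ^ 2) + (m.natAbs : ℝ) * (1 - r ^ 2)) / (1 - r ^ 2) ^ 3 : ℝ) : ℂ)

/-- sharp bounds for the multipliers with the weight `w2` -/
def P_W2 : Prop := ∀ c : ℝ, 0 ≤ c → ∃ B : ℝ, 0 < B ∧ ∃ R0 : ℕ, 1 ≤ R0 ∧
  ∀ (J Rs : ℕ) (I : ℕ → Finset ℕ) (b : ℕ → ℝ) (R : ℕ → ℕ) (a : ℝ),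
    Rg c J I b → R0 ≤ Rs → (∀ i, Rs + i ≤ R i) → |a| ≤ 1 / 16 →
    (0 ≤ lam w2 (GP J a R I) ∧
      lam w2 (GP J a R I) ≤
        Real.exp ((4 * a + a ^ 2) * (∑ i ∈ range J, vI (I i)) + B * (|a| + Real.exp (-(Rs:ℝ))))) ∧
    ∀ lm : ℕ → ℝ, (∀ i, 0 ≤ lm i) → (∀ i, lm i ≤ Real.exp (R i)) →
      Real.exp ((4 * a + a ^ 2) * (∑ i ∈ range J, vI (I i)) - B * (|a| + Real.exp (-(Rs:ℝ)))) ≤
        lam w2 (GQ lm J a R I) ∧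
      lam w2 (GQ lm J a R I) ≤
        Real.exp ((4 * a + a ^ 2) * (∑ i ∈ range J, vI (I i)) + B * (|a| + Real.exp (-(Rs:ℝ))))

/-! ### approximate functional equation -/

/-- symmetric approximate functional equation with smooth cutoffs -/
def P_AFE : Prop := ∀ η : ℝ, 0 < η → η ≤ 1 / 100 → ∃ k₀ : ℕ, ∀ k : ℕ, k₀ ≤ k → ∃ T₀ : ℝ, ∀ T : ℝ, T₀ ≤ T →
  ∀ t : ℝ, T / 8 ≤ t → t ≤ 8 * T → ∀ D : ℝ, 0 ≤ D → D ≤ 1 / 2 * Real.log T →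
    ‖riemannZeta (cl t) - cs k (η * Real.log T / k) D (cl t) -
      XX (1 - cl t) * cs k (η * Real.log T / k) (Real.log (t / (2 * Real.pi)) - D - η * Real.log T) (1 - cl t)‖ ≤
      T ^ (-(1 / 5) : ℝ)

/-- the version with fixed lengths: the error is dominated by shorter smoothings divided by `log T` -/
def P_AFP : Prop := ∀ η : ℝ, 0 < η → η ≤ 1 / 100 → ∃ k₀ : ℕ, ∀ k : ℕ, k₀ ≤ k → ∃ C T₀ : ℝ, 0 < C ∧ ∀ T : ℝ, T₀ ≤ T →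
  ∀ t : ℝ, T / 8 ≤ t → t ≤ 8 * T → ∀ c D1 D2 : ℝ, c = η * Real.log T / ((k:ℝ) + 1) →
    D1 = (1 / 2 - 2 * η) * Real.log T → D2 = Real.log (T / (2 * Real.pi)) - D1 - η * Real.log T →
    ‖riemannZeta (cl t) - cs (k + 1) c D1 (cl t) -
      XX (1 - cl t) * (starRingEnd ℂ) (cs (k + 1) c D2 (cl t))‖ ^ 2 ≤
      T ^ (-(1 / 3) : ℝ) + C / Real.log T ^ 2 *
        ∫ u in (-3:ℝ)..3, (‖cs k c (D2 + u + c) (cl t)‖ ^ 2 + ‖cs k c (D2 + u) (cl t)‖ ^ 2)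

/-! ### the first moment -/

/-- the mean of `conj ζ²` times a monomial `h^{-1/2-it} l^{-1/2+it}` -/
def P_FM : Prop := ∀ θ : ℝ, θ < 1 → ∀ᶠ T : ℝ in atTop, ∀ κ : ℕ, Rng T κ → ∀ h l : ℕ, 1 ≤ h → 1 ≤ l →
  (h : ℝ) ≤ T ^ θ → (l : ℝ) ≤ T →
    ‖(∫ t in Set.Ioi (0 : ℝ), ((om κ (κ / T) t : ℝ) : ℂ) * ((starRingEnd ℂ) (riemannZeta (cl t)) ^ 2 * mh t (h, l))) -
      (if l ∣ h then (((h / l).divisors.card : ℝ) / (h : ℝ) : ℂ) else 0)‖ ≤ T ^ (-1 : ℝ)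

/-! ### second moment with exponent near one, fourth moment from below -/

/-- upper bound of the right order for `E |ζ|² |P|^{2(1+a)}` -/
def P_T2 : Prop := ∃ η' : ℝ, 0 < η' ∧ η' ≤ 1 / 200 ∧ ∀ c : ℝ, ∃ C : ℝ, 0 < C ∧ ∀ Rs : ℕ, 1 ≤ Rs →
  ∀ᶠ T : ℝ in atTop, ∀ κ : ℕ, Rng T κ → ∀ (y a : ℝ) (J : ℕ), BL c y J →
    320 * ((Rs:ℝ) + 1) * Real.log y ≤ η' * Real.log T → |a| ≤ 1 / 16 →
    ∫ t in Set.Ioi (0:ℝ), wz κ T t * gp J (1 + a) (RR Rs) (II y) t ≤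
      C * Real.log T * Real.exp ((3 + 4 * a + a ^ 2) * ∑ i ∈ range J, vI (II y i))

/-- the moments of the windows -/
def W (β : ℝ) (κ : ℕ) (T : ℝ) : ℝ := ∫ t in Set.Ioi (0:ℝ), om κ (κ / T) t * Xz t ^ β

/-- lower bound of the right order for the fourth moment -/
def P_X4L : Prop := ∃ c : ℝ, 0 < c ∧ ∀ᶠ T : ℝ in atTop, ∀ κ : ℕ, Rng T κ → c * Real.log T ^ 4 ≤ W 4 κ T

/-! ### multipliers -/

/-- the multipliers: truncated squares or their variants with the large values -/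
def IsM (Rs J : ℕ) (y a : ℝ) (G : DA) : Prop :=
  G = GP J a (RR Rs) (II y) ∨ ∃ lm : ℕ → ℝ, (∀ i, 0 ≤ lm i) ∧ (∀ i, lm i ≤ Real.exp (RR Rs i)) ∧
    G = GQ lm J a (RR Rs) (II y)

/-- the main order of the multiplier -/
def EV (J : ℕ) (y a : ℝ) : ℝ := Real.exp ((4 * a + a ^ 2) * ∑ i ∈ range J, vI (II y i))

/-- the twisted fourth moment with a multiplier -/
def P_T4 : Prop := ∃ η' : ℝ, 0 < η' ∧ η' ≤ 1 / 200 ∧ ∀ c : ℝ, ∃ C : ℝ, 0 < C ∧ ∃ R0 : ℕ, 1 ≤ R0 ∧ ∀ Rs : ℕ, R0 ≤ Rs →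
  ∀ᶠ T : ℝ in atTop, ∀ κ : ℕ, Rng T κ → ∀ (y a : ℝ) (J : ℕ) (G : DA), BL c y J → IsM Rs J y a G →
    320 * ((Rs:ℝ) + 1) * Real.log y ≤ η' * Real.log T → |a| ≤ 1 / 16 →
    IntegrableOn (fun t => om κ (κ / T) t * (Xz t ^ 4 * (ev t G).re)) (Set.Ioi 0) ∧
    |(∫ t in Set.Ioi (0:ℝ), om κ (κ / T) t * (Xz t ^ 4 * (ev t G).re)) - lam w2 G * W 4 κ T| ≤
      C * Real.log y * Real.log T ^ 3 * EV J y a

/-! ### windows -/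

/-- two-sided size of the fourth moment in the windows -/
def P_W4 : Prop := ∃ c C : ℝ, 0 < c ∧ 0 < C ∧ ∀ᶠ T : ℝ in atTop, ∀ κ : ℕ, Rng T κ →
  c * Real.log T ^ 4 ≤ W 4 κ T ∧ W 4 κ T ≤ C * Real.log T ^ 4

/-- the moments near four in the windows -/
def P_WIN : Prop := ∀ ε : ℝ, 0 < ε → ∃ δ : ℝ, 0 < δ ∧ δ ≤ 1 / 40 ∧ ∀ᶠ T : ℝ in atTop, ∀ κ : ℕ, Rng T κ →
  (∀ β : ℝ, 4 - δ ≤ β → β ≤ 4 → W β κ T ≤ (1 + ε) * Real.log T ^ (β ^ 2 / 4 - 4) * W 4 κ T) ∧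
  (∀ β : ℝ, 4 ≤ β → β ≤ 4 + δ → (1 - ε) * Real.log T ^ (β ^ 2 / 4 - 4) * W 4 κ T ≤ W β κ T)

/-- the moment of the problem -/
def aM (β x T : ℝ) : ℝ := ∫ u in (0:ℝ)..1, ‖riemannZeta (1 / 2 + x * Complex.I + (u * T) * Complex.I)‖ ^ β

/-- the final theorem -/
def P_FIN : Prop := ∀ ε : ℝ, 0 < ε → ∃ δ : ℝ, 0 < δ ∧ ∀ x : ℝ, ∀ᶠ T : ℝ in atTop,
  (∀ β : ℝ, 4 - δ ≤ β → β ≤ 4 → aM β x T ≤ (1 + ε) * Real.log T ^ (β ^ 2 / 4 - 4) * aM 4 x T) ∧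
  (∀ β : ℝ, 4 ≤ β → β ≤ 4 + δ → (1 - ε) * Real.log T ^ (β ^ 2 / 4 - 4) * aM 4 x T ≤ aM β x T)

end

end Pool.Agent.TH806.N4
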