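import Pool.Agent.TH806.N4.Defs

set_option autoImplicit false

/-!
N4 project, second part: the twisted fourth moment on the torus. Definitions and statements.
-/

namespace Pool.Agent.TH806.N4

open Finset Filter Topology MeasureTheory Complex MonoidAlgebra
open Pool.Agent.W184.NZ
open Pool.Agent.TH806
open Pool.Agent.H306R2.SM (om cl Yf)
open Pool.Agent.H262R4.TM (Rng Ck)
open Pool.Agent.H448R2.GC (cu cs ker XX)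

noncomputable section

/-- one block of the multiplier: the element `g` of the algebra has the values `φ(Σ_{p∈I} p^{-s})` -/
structure MB (a : ℝ) (R : ℕ) (I : Finset ℕ) (g : DA) (φ : ℂ → ℝ) : Prop where
  cont : Continuous φ
  nn : ∀ z, 0 ≤ φ z
  up : ∀ z, φ z ≤ (1 + Real.exp (-(R:ℝ))) ^ 2 * Real.exp (2 * a * z.re) +
    2 * Real.exp (-(R:ℝ)) * Real.exp (4 * ‖z‖)
  evl : ∀ t : ℝ, ev t g = ((φ (PI I (1 / 2 + t * Complex.I)) : ℝ) : ℂ)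
  evt : ∀ (N : ℕ) (θ : Ix N → ℝ), evt θ g = ((φ (PT θ I) : ℝ) : ℂ)
  mem : g ∈ SA (MI I)

/-- the multiplier -/
structure MG (c y : ℝ) (J Rs : ℕ) (a : ℝ) (g : ℕ → DA) (φ : ℕ → ℂ → ℝ) (G : DA) : Prop where
  bl : BL c y J
  blk : ∀ i, MB a (RR Rs i) (II y i) (g i) (φ i)
  eq : G = ∏ i ∈ range J, g i
  bd : Bd (Real.exp (Real.log y * (320 * ((Rs:ℝ) + 1)))) G
  l1 : l1 G ≤ Real.exp (Real.log y * (320 * ((Rs:ℝ) + 1)))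

/-- the two types of multipliers, and `1` (with `a = 0`) -/
def P_MG : Prop := ∀ (c y : ℝ) (J Rs : ℕ) (a : ℝ) (G : DA), BL c y J → 1 ≤ Rs → |a| ≤ 1 / 16 →
  (IsM Rs J y a G → ∃ (g : ℕ → DA) (φ : ℕ → ℂ → ℝ), MG c y J Rs a g φ G) ∧
  (∃ (g : ℕ → DA) (φ : ℕ → ℂ → ℝ), MG c y J Rs 0 g φ 1)

/-- the absolute bound over the torus -/
def P_TA : Prop := ∀ c : ℝ, ∃ C : ℝ, 0 < C ∧ ∀ (y L a δ τ : ℝ) (z : ℂ) (N J Rs : ℕ) (g : ℕ → DA) (φ : ℕ → ℂ → ℝ) (G : DA),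
  MG c y J Rs a g φ G → 1 ≤ Rs → |a| ≤ 1 / 16 → Par L N z δ τ → Real.log y ≤ L → y < N →
    ∫ θ, ‖PP (ap N z) θ‖ * ‖ZT (wp δ τ) θ‖ ^ 2 * (evt θ G).re ∂(TT N) ≤ C * L ^ 3 * EV J y a

/-- first moment functional -/
def F1 (N : ℕ) (L v1 v2 : ℝ) (G : DA) : ℂ :=
  ∫ θ, (starRingEnd ℂ) (ZT (1 / 2) θ) ^ 2 * (ZT (wp (1 / L) v1) θ * ZT (wp (1 / L) v2) θ) * evt θ G ∂(TT N)

/-- second moment functional -/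
def F2 (N : ℕ) (L : ℝ) (z : ℂ) (v1 v2 : ℝ) (G : DA) : ℂ :=
  ∫ θ, ZT (wp (1 / L) v1) θ * (starRingEnd ℂ) (ZT (wp (1 / L) v2) θ) * PP (ap N z) θ * evt θ G ∂(TT N)

/-- decoupling of the multiplier on the torus -/
def P_DL : Prop := ∀ c B : ℝ, ∃ C : ℝ, 0 < C ∧ ∀ (y L a : ℝ) (N J Rs : ℕ) (g : ℕ → DA) (φ : ℕ → ℂ → ℝ) (G : DA),
  MG c y J Rs a g φ G → 1 ≤ Rs → |a| ≤ 1 / 16 → |lam w2 G| ≤ B * EV J y a → 1 ≤ L → Real.log y ≤ L →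
  (∀ p : ℕ, p < N → Real.log p ≤ 3 * L) → y < N → ∀ v1 v2 : ℝ,
    ‖F1 N L v1 v2 G - (lam w2 G : ℂ) * F1 N L v1 v2 1‖ ≤
      C * Real.log y * L ^ 3 * EV J y a * ((1 + L * |v1|) * (1 + L * |v2|)) ∧
    ∀ z : ℂ, ‖z‖ ≤ 1 / (20 * L) →
      ‖F2 N L z v1 v2 G - (lam w2 G : ℂ) * F2 N L z v1 v2 1‖ ≤
        C * Real.log y * L ^ 2 * EV J y a * ((1 + L * |v1|) * (1 + L * |v2|))

/-- Dirichlet polynomials with a kernel representation on the torus -/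
structure KRep (L : ℝ) (k : ℕ) (CK : ℝ) (f : ℕ → ℂ) (M : ℕ) (K : ℝ → ℂ) : Prop where
  fb : ∀ n, n ≠ 0 → ‖f n‖ ≤ 1
  Kc : Continuous K
  Kb : ∀ v, ‖K v‖ ≤ CK * (L / (1 + L * |v|) ^ (k + 1))
  rep : ∀ (N : ℕ), M < N → ∀ θ : Ix N → ℝ,
    ∑ m ∈ Icc 1 M, f m * ((m : ℂ) ^ (-(1 / 2) : ℂ) * chi θ m) =
      (1 / (2 * Real.pi)) * ∫ v : ℝ, K v * ZT (wp (1 / L) v) θ

/-- the smoothed sums have such a representation -/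
def P_KR : Prop := ∀ (η1 : ℝ) (k : ℕ), 0 < η1 → η1 ≤ 1 → 1 ≤ k → ∃ CK : ℝ, 0 < CK ∧ ∀ L D : ℝ, 1 ≤ L → 0 ≤ D → D ≤ L →
  ∃ (M : ℕ) (K : ℝ → ℂ), (M : ℝ) ≤ Real.exp (D + η1 * L) ∧
    KRep L k CK (fun m => (cu k (η1 * L / k) (Real.log m - D) : ℂ)) M K ∧
    (∀ t : ℝ, cs k (η1 * L / k) D (cl t) = DP (fun m => (cu k (η1 * L / k) (Real.log m - D) : ℂ)) M t) ∧
    ∀ M' : ℕ, M ≤ M' → KRep L k CK (fun m => (cu k (η1 * L / k) (Real.log m - D) : ℂ)) M' K ∧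
      ∀ t : ℝ, cs k (η1 * L / k) D (cl t) = DP (fun m => (cu k (η1 * L / k) (Real.log m - D) : ℂ)) M' t

/-- the absolute bound for smoothed sums times the multiplier -/
def P_TB0 : Prop := ∃ η' : ℝ, 0 < η' ∧ η' ≤ 1 / 200 ∧ ∀ (k : ℕ) (η1 c : ℝ), 2 ≤ k → 0 < η1 → η1 ≤ 1 / 100 →
  ∃ C : ℝ, 0 < C ∧ ∀ Rs : ℕ, 1 ≤ Rs → ∀ᶠ T : ℝ in atTop, ∀ κ : ℕ, Rng T κ →
  ∀ (y a D : ℝ) (J : ℕ) (g : ℕ → DA) (φ : ℕ → ℂ → ℝ) (G : DA), MG c y J Rs a g φ G → |a| ≤ 1 / 16 →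
    320 * ((Rs:ℝ) + 1) * Real.log y ≤ η' * Real.log T → 0 ≤ D → D + η1 * Real.log T ≤ 41 / 80 * Real.log T →
    ∫ t in Set.Ioi (0:ℝ), wz κ T t * (‖cs k (η1 * Real.log T / k) D (cl t)‖ ^ 2 * (ev t G).re) ≤
      C * Real.log T ^ 4 * EV J y a

/-- decoupling for the twisted second moment of a polynomial of length up to `T^{41/80}` -/
def P_TW2 : Prop := ∃ η' : ℝ, 0 < η' ∧ η' ≤ 1 / 200 ∧ ∀ (k : ℕ) (c B CK : ℝ), 3 ≤ k →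
  ∃ C : ℝ, 0 < C ∧ ∀ Rs : ℕ, 1 ≤ Rs → ∀ᶠ T : ℝ in atTop, ∀ κ : ℕ, Rng T κ →
  ∀ (y a : ℝ) (J : ℕ) (g : ℕ → DA) (φ : ℕ → ℂ → ℝ) (G : DA) (f : ℕ → ℂ) (M : ℕ) (K : ℝ → ℂ),
    MG c y J Rs a g φ G → |a| ≤ 1 / 16 → |lam w2 G| ≤ B * EV J y a →
    320 * ((Rs:ℝ) + 1) * Real.log y ≤ η' * Real.log T → KRep (Real.log T) k CK f M K →
    (M : ℝ) ≤ T ^ (41 / 80 : ℝ) →
    |(∫ t in Set.Ioi (0:ℝ), wz κ T t * (‖DP f M t‖ ^ 2 * (ev t G).re)) -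
      lam w2 G * ∫ t in Set.Ioi (0:ℝ), wz κ T t * ‖DP f M t‖ ^ 2| ≤ C * Real.log y * Real.log T ^ 3 * EV J y a

/-- decoupling for the first moment of `conj ζ²` times the square of a polynomial of length up to `T^{99/200}` -/
def P_TW1 : Prop := ∃ η' : ℝ, 0 < η' ∧ η' ≤ 1 / 200 ∧ ∀ (k : ℕ) (c B CK : ℝ), 3 ≤ k →
  ∃ C : ℝ, 0 < C ∧ ∀ Rs : ℕ, 1 ≤ Rs → ∀ᶠ T : ℝ in atTop, ∀ κ : ℕ, Rng T κ →
  ∀ (y a : ℝ) (J : ℕ) (g : ℕ → DA) (φ : ℕ → ℂ → ℝ) (G : DA) (f : ℕ → ℂ) (M : ℕ) (K : ℝ → ℂ),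
    MG c y J Rs a g φ G → |a| ≤ 1 / 16 → |lam w2 G| ≤ B * EV J y a →
    320 * ((Rs:ℝ) + 1) * Real.log y ≤ η' * Real.log T → KRep (Real.log T) k CK f M K →
    (M : ℝ) ≤ T ^ (99 / 200 : ℝ) →
    |(∫ t in Set.Ioi (0:ℝ), om κ (κ / T) t *
        (((starRingEnd ℂ) (riemannZeta (cl t)) ^ 2 * DP f M t ^ 2).re * (ev t G).re)) -
      lam w2 G * ∫ t in Set.Ioi (0:ℝ), om κ (κ / T) t *
        ((starRingEnd ℂ) (riemannZeta (cl t)) ^ 2 * DP f M t ^ 2).re| ≤ C * Real.log y * Real.log T ^ 3 * EV J y a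

end

end Pool.Agent.TH806.N4
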