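import Pool.Agent.TH806.N4.Van

set_option autoImplicit false

/-!
N4: holomorphic families of local parameters and their absolute bounds.
-/

namespace Pool.Agent.TH806.N4

open Finset MeasureTheory Complex MonoidAlgebra Filter Topology
open Pool.Agent.W184.NZ
open Pool.Agent.TH806

noncomputable section

/-- holomorphy of parametric integrals of holomorphic functions, dominated version -/
theorem diffOn_int {Ω : Type*} [MeasurableSpace Ω] {U : Set ℂ} (hU : IsOpen U) (μ : Measure Ω) (F : ℂ → Ω → ℂ)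
    (B : Ω → ℝ) (hB : Integrable B μ) (hm : ∀ l ∈ U, AEStronglyMeasurable (F l) μ)
    (hd : ∀ᵐ t ∂μ, DifferentiableOn ℂ (fun l => F l t) U)
    (hb : ∀ᵐ t ∂μ, ∀ l ∈ U, ‖F l t‖ ≤ B t) :
    DifferentiableOn ℂ (fun l => ∫ t, F l t ∂μ) U := by
  intro l₀ hl₀
  obtain ⟨ρ, hρ, hball⟩ := Metric.isOpen_iff.mp hU l₀ hl₀
  set r : ℝ := ρ / 3 with hr
  have hr0 : 0 < r := by positivity
  have hsub : ∀ l ∈ Metric.ball l₀ r, Metric.closedBall l r ⊆ U := by
    intro l hl z hz
    apply hball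
    rw [Metric.mem_ball] at hl ⊢
    rw [Metric.mem_closedBall] at hz
    have := dist_triangle z l l₀
    linarith
  have hballU : Metric.ball l₀ r ⊆ U := fun l hl =>
    hsub l hl (Metric.mem_closedBall_self hr0.le)
  have hderiv : ∀ᵐ t ∂μ, ∀ l ∈ Metric.ball l₀ r,
      HasDerivAt (fun l => F l t) (deriv (fun l => F l t) l) l := by
    filter_upwards [hd] with t ht l hl
    exact ((ht l (hballU hl)).differentiableAt (hU.mem_nhds (hballU hl))).hasDerivAt
  have hbound : ∀ᵐ t ∂μ, ∀ l ∈ Metric.ball l₀ r, ‖deriv (fun l => F l t) l‖ ≤ B t / r := by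
    filter_upwards [hd, hb] with t ht hbt l hl
    apply Complex.norm_deriv_le_of_forall_mem_sphere_norm_le hr0
    · have h1 : DifferentiableOn ℂ (fun l => F l t) (Metric.closedBall l r) :=
        ht.mono (hsub l hl)
      exact h1.diffContOnCl_ball le_rfl
    · intro z hz
      exact hbt z (hsub l hl (Metric.sphere_subset_closedBall hz))
  have hl₀b : l₀ ∈ Metric.ball l₀ r := Metric.mem_ball_self hr0
  have hmeas : AEStronglyMeasurable (fun t => deriv (fun l => F l t) l₀) μ := by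
    set h : ℕ → ℂ := fun n => ((r / ((n : ℝ) + 2) : ℝ) : ℂ) with hh
    have hpos : ∀ n : ℕ, 0 < r / ((n : ℝ) + 2) := fun n => by positivity
    have hh0 : ∀ n, h n ≠ 0 := fun n => by
      have := (hpos n).ne'
      simp only [hh]
      exact_mod_cast this
    have hhU : ∀ n, l₀ + h n ∈ U := fun n => by
      apply hballU
      rw [Metric.mem_ball, dist_eq_norm, add_sub_cancel_left, hh]
      simp only
      rw [Complex.norm_real, Real.norm_eq_abs, abs_of_pos (hpos n), div_lt_iff₀ (by positivity)]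
      have : (0 : ℝ) ≤ n := Nat.cast_nonneg _
      nlinarith
    have htend : Tendsto h atTop (𝓝[≠] 0) := by
      apply tendsto_nhdsWithin_of_tendsto_nhds_of_eventually_within
      · have h1 : Tendsto (fun n : ℕ => r / ((n : ℝ) + 2)) atTop (𝓝 0) := by
          apply Tendsto.div_atTop tendsto_const_nhds
          exact tendsto_atTop_add_const_right _ _ tendsto_natCast_atTop_atTop
        have h2 := (Complex.continuous_ofReal.tendsto 0).comp h1
        rw [Complex.ofReal_zero] at h2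
        exact h2
      · exact Eventually.of_forall hh0
    apply aestronglyMeasurable_of_tendsto_ae atTop
      (f := fun n t => (h n)⁻¹ • (F (l₀ + h n) t - F l₀ t))
    · intro n
      show AEStronglyMeasurable ((h n)⁻¹ • (F (l₀ + h n) - F l₀)) μ
      exact ((hm _ (hhU n)).sub (hm _ hl₀)).const_smul _
    · filter_upwards [hderiv] with t ht
      have h1 := hasDerivAt_iff_tendsto_slope_zero.mp (ht l₀ hl₀b)
      exact h1.comp htend
  have hFint : Integrable (F l₀) μ := by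
    apply Integrable.mono' hB (hm l₀ hl₀)
    filter_upwards [hb] with t ht
    exact ht l₀ hl₀
  have hFm : ∀ᶠ l in 𝓝 l₀, AEStronglyMeasurable (F l) μ := by
    filter_upwards [hU.mem_nhds hl₀] with l hl
    exact hm l hl
  have key := hasDerivAt_integral_of_dominated_loc_of_deriv_le (μ := μ) (F := F)
    (F' := fun l t => deriv (fun l => F l t) l) (bound := fun t => B t / r)
    (Metric.ball_mem_nhds l₀ hr0) hFm hFint hmeas hbound (hB.div_const r) hderiv
  exact key.2.differentiableAt.differentiableWithinAt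

variable {N : ℕ}

/-- the shifted local parameters: the shift is scaled by `ξ` at the primes up to `y` -/
def Sh (N : ℕ) (y : ℝ) (s ξ : ℂ) (p : Ix N) : ℂ :=
  ((xh p.1 : ℝ) : ℂ) * Complex.exp (-((if (p.1 : ℝ) ≤ y then ξ * s else s) * (Real.log p.1 : ℝ)))

lemma Sh_diff (y : ℝ) (s : ℂ) (p : Ix N) : Differentiable ℂ fun ξ => Sh N y s ξ p := by
  unfold Sh
  split_ifs
  · fun_prop
  · exact differentiable_const _

lemma Sh_one_ap (y : ℝ) (z : ℂ) (p : Ix N) : Sh N y z 1 p = ap N z p := by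
  unfold Sh; rw [ap_eq]; split_ifs <;> simp

lemma Sh_one_ub (y : ℝ) (δ τ : ℝ) (p : Ix N) : Sh N y ((δ : ℂ) + (τ : ℂ) * I) 1 p = ub N (wp δ τ) p := by
  unfold Sh
  rw [ub_eq, one_mul, ite_self]
  congr 1
  rw [Complex.ofReal_exp, ← Complex.exp_add]
  congr 1
  push_cast; ring

lemma Sh_one_conj (y : ℝ) (δ τ : ℝ) (p : Ix N) :
    Sh N y ((δ : ℂ) - (τ : ℂ) * I) 1 p = (starRingEnd ℂ) (ub N (wp δ τ) p) := by
  rw [← Sh_one_ub y δ τ p]
  unfold Sh
  rw [one_mul, ite_self, one_mul, ite_self, map_mul, Complex.conj_ofReal, ← Complex.exp_conj]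
  congr 2
  simp only [map_neg, map_mul, map_add, Complex.conj_ofReal, Complex.conj_I]
  ring

lemma Sh_conj (y : ℝ) (s ξ : ℂ) (p : Ix N) :
    (starRingEnd ℂ) (Sh N y s ξ p) = Sh N y ((starRingEnd ℂ) s) ((starRingEnd ℂ) ξ) p := by
  unfold Sh
  rw [map_mul, Complex.conj_ofReal, ← Complex.exp_conj]
  split_ifs <;> simp only [map_neg, map_mul, Complex.conj_ofReal]

lemma Sh_zero_s (y : ℝ) (ξ : ℂ) (p : Ix N) : Sh N y 0 ξ p = ((xh p.1 : ℝ) : ℂ) := by
  unfold Sh; split_ifs <;> simp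

lemma Sh_at_zero {y : ℝ} (s : ℂ) {p : Ix N} (hp : (p.1:ℝ) ≤ y) : Sh N y s 0 p = ((xh p.1 : ℝ) : ℂ) := by
  unfold Sh; rw [if_pos hp]; simp

/-- the weights -/
def qy (y L : ℝ) (p : ℕ) : ℝ := if (p:ℝ) ≤ y then Real.log p / Real.log y else Real.log p / L

lemma exp_small {w : ℂ} (hw : ‖w‖ ≤ 1 / 200) : ‖Complex.exp w‖ ≤ 1017 / 1000 ∧ ‖Complex.exp w - 1‖ ≤ 2 * ‖w‖ := by
  have h1 := Complex.norm_exp_sub_one_le (x := w) (by linarith)
  refine ⟨?_, h1⟩
  calc ‖Complex.exp w‖ = ‖1 + (Complex.exp w - 1)‖ := by ring_nf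
    _ ≤ ‖(1:ℂ)‖ + ‖Complex.exp w - 1‖ := norm_add_le _ _
    _ ≤ _ := by rw [norm_one]; linarith

/-- admissible shifts at the scale `L` -/
def Adm (L : ℝ) (s : ℂ) : Prop := 0 ≤ s.re ∧ s.re ≤ 2 / L

theorem fam_Sh {y L : ℝ} (hy : 3 ≤ y) (hL : 1 ≤ L) (hN : ∀ p : ℕ, p < N → Real.log p ≤ 3 * L) {z s ξ : ℂ}
    (hz : ‖z‖ ≤ 1 / (20 * L)) (hs : Adm L s) (hξz : ‖ξ‖ * ‖z‖ * Real.log y ≤ 1 / 200)
    (hξs : ‖ξ‖ * ‖s‖ * Real.log y ≤ 1 / 200) :
    Fam N (qy y L) (Sh N y z ξ) (Sh N y s ξ) := by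
  have hly : 1 ≤ Real.log y := by
    rw [Real.le_log_iff_exp_le (by linarith)]
    have := Real.exp_one_lt_d9
    linarith
  have hPar : Par L N z s.re s.im := ⟨hL, hN, hz, hs.1, hs.2⟩
  have hlog : ∀ p : ℕ, 0 ≤ Real.log p := fun p => Real.log_natCast_nonneg p
  have hsmall : ∀ (p : Ix N) (w : ℂ), (p.1:ℝ) ≤ y → ‖ξ‖ * ‖w‖ * Real.log y ≤ 1 / 200 →
      ‖-(ξ * w * (Real.log p.1 : ℝ))‖ ≤ 1 / 200 * (Real.log p.1 / Real.log y) ∧
      ‖-(ξ * w * (Real.log p.1 : ℝ))‖ ≤ 1 / 200 := by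
    intro p w hp hw
    have h2 : Real.log p.1 ≤ Real.log y := Real.log_le_log (ix_pos p) hp
    have h1 : ‖-(ξ * w * (Real.log p.1 : ℝ))‖ ≤ 1 / 200 * (Real.log p.1 / Real.log y) := by
      rw [norm_neg, norm_mul, norm_mul, Complex.norm_real, Real.norm_eq_abs, abs_of_nonneg (hlog _)]
      have e : ‖ξ‖ * ‖w‖ * Real.log p.1 = (‖ξ‖ * ‖w‖ * Real.log y) * (Real.log p.1 / Real.log y) := by
        field_simp
      rw [e]
      exact mul_le_mul_of_nonneg_right hw (div_nonneg (hlog _) (by linarith))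
    refine ⟨h1, h1.trans ?_⟩
    have : Real.log p.1 / Real.log y ≤ 1 := (div_le_one (by linarith)).mpr h2
    linarith
  refine ⟨?_, ?_, ?_, ?_, ?_, ?_⟩
  · intro p
    unfold qy
    split_ifs
    · exact div_nonneg (hlog _) (by linarith)
    · exact div_nonneg (hlog _) (by linarith)
  · intro p
    unfold qy
    split_ifs with hp
    · have h2 : Real.log p.1 ≤ Real.log y := Real.log_le_log (ix_pos p) hp
      have : Real.log p.1 / Real.log y ≤ 1 := (div_le_one (by linarith)).mpr h2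
      linarith
    · rw [div_le_iff₀ (by linarith)]
      exact hN p.1 (ix_lt p)
  · intro p
    by_cases hp : (p.1:ℝ) ≤ y
    · unfold Sh qy
      rw [if_pos hp, if_pos hp]
      obtain ⟨h1, h2⟩ := hsmall p z hp hξz
      have h3 := (exp_small h2).2
      have e1 : ((xh p.1 : ℝ) : ℂ) * Complex.exp (-(ξ * z * (Real.log p.1 : ℝ))) - ((xh p.1 : ℝ) : ℂ) =
          ((xh p.1 : ℝ) : ℂ) * (Complex.exp (-(ξ * z * (Real.log p.1 : ℝ))) - 1) := by ring
      rw [e1, norm_mul, Complex.norm_real, Real.norm_eq_abs, abs_of_pos (xh_pos _)]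
      refine mul_le_mul_of_nonneg_left ?_ (xh_pos _).le
      have h4 : 0 ≤ Real.log p.1 / Real.log y := div_nonneg (hlog _) (by linarith)
      linarith
    · have e1 : Sh N y z ξ p = ap N z p := by
        unfold Sh; rw [if_neg hp, ap_eq]
      have e2 : qy y L p.1 = qL L p.1 := by unfold qy qL; rw [if_neg hp]
      rw [e1, e2]
      exact ap_near hPar p
  · intro p
    by_cases hp : (p.1:ℝ) ≤ y
    · unfold Sh
      rw [if_pos hp]
      obtain ⟨h1, h2⟩ := hsmall p z hp hξz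
      have h3 := (exp_small h2).1
      rw [norm_mul, Complex.norm_real, Real.norm_eq_abs, abs_of_pos (xh_pos _), mul_comm]
      exact mul_le_mul_of_nonneg_right (by linarith) (xh_pos _).le
    · have e1 : Sh N y z ξ p = ap N z p := by
        unfold Sh; rw [if_neg hp, ap_eq]
      rw [e1]; exact ap_le hPar p
  · intro p
    by_cases hp : (p.1:ℝ) ≤ y
    · obtain ⟨h1, h2⟩ := hsmall p s hp hξs
      have h3 := (exp_small h2).2
      have h4 : 0 ≤ Real.log p.1 / Real.log y := div_nonneg (hlog _) (by linarith)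
      refine ⟨1, norm_one, ?_⟩
      have e1 : Sh N y s ξ p - ((xh p.1 : ℝ) : ℂ) * 1 =
          ((xh p.1 : ℝ) : ℂ) * (Complex.exp (-(ξ * s * (Real.log p.1 : ℝ))) - 1) := by
        unfold Sh; rw [if_pos hp]; ring
      have e2 : qy y L p.1 = Real.log p.1 / Real.log y := by unfold qy; rw [if_pos hp]
      rw [e1, e2, norm_mul, Complex.norm_real, Real.norm_eq_abs, abs_of_pos (xh_pos _)]
      have hx := xh_pos p.1
      exact ⟨mul_le_mul_of_nonneg_left (by linarith) hx.le, by nlinarith⟩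
    · have e1 : Sh N y s ξ p = ub N (wp s.re s.im) p := by
        rw [← Sh_one_ub y s.re s.im p]
        unfold Sh; rw [if_neg hp, if_neg hp, Complex.re_add_im]
      have e2 : qy y L p.1 = qL L p.1 := by unfold qy qL; rw [if_neg hp]
      rw [e1, e2]
      exact ub_near hPar p
  · intro p
    by_cases hp : (p.1:ℝ) ≤ y
    · unfold Sh
      rw [if_pos hp]
      obtain ⟨h1, h2⟩ := hsmall p s hp hξs
      have h3 := (exp_small h2).1
      rw [norm_mul, Complex.norm_real, Real.norm_eq_abs, abs_of_pos (xh_pos _), mul_comm]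
      exact mul_le_mul_of_nonneg_right h3 (xh_pos _).le
    · have e1 : Sh N y s ξ p = ub N (wp s.re s.im) p := by
        rw [← Sh_one_ub y s.re s.im p]
        unfold Sh; rw [if_neg hp, if_neg hp, Complex.re_add_im]
      rw [e1]
      exact (ub_le hPar p).trans (by linarith [xh_pos p.1])

lemma qy_sum : ∃ C : ℝ, 0 ≤ C ∧ ∀ (N : ℕ) (y L : ℝ), 3 ≤ y → 1 ≤ L → (∀ p : ℕ, p < N → Real.log p ≤ 3 * L) →
    ∀ S : Finset ℕ, S ⊆ Nat.primesBelow N → ∑ p ∈ S, qy y L p / p ≤ C := by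
  obtain ⟨C1, hC10, hC1⟩ := qL_sum
  obtain ⟨C2, hC20, hC2⟩ := logsum
  refine ⟨C1 + (1 + C2), by positivity, ?_⟩
  intro N y L hy hL hN S hS
  have hly : 1 ≤ Real.log y := by
    rw [Real.le_log_iff_exp_le (by linarith)]
    have := Real.exp_one_lt_d9
    linarith
  have h1 : ∀ p ∈ S, qy y L p / p ≤ qL L p / p + (if (p:ℝ) ≤ y then Real.log p / p else 0) / Real.log y := by
    intro p hp
    have hl : 0 ≤ Real.log (p:ℝ) := Real.log_natCast_nonneg p
    have h0 : 0 ≤ qL L p / p := div_nonneg (qL_nonneg hL p) (Nat.cast_nonneg _)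
    unfold qy
    split_ifs
    · have e : Real.log (p:ℝ) / Real.log y / p = Real.log p / p / Real.log y := by ring
      rw [e]; linarith
    · unfold qL; simp
  refine (sum_le_sum h1).trans ?_
  rw [sum_add_distrib, ← sum_div, ← sum_filter]
  have h2 := hC1 N L hL hN S hS
  have h3 : ∑ p ∈ S.filter (fun p : ℕ => (p:ℝ) ≤ y), Real.log (p:ℝ) / p ≤ Real.log y + C2 := by
    refine le_trans ?_ (hC2 y (by linarith))
    refine sum_le_sum_of_subset_of_nonneg ?_ fun p _ _ => div_nonneg (Real.log_natCast_nonneg p) (Nat.cast_nonneg _)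
    intro p hp
    rw [mem_filter] at hp ⊢
    have hpp := (Nat.mem_primesBelow.mp (hS hp.1)).2
    exact ⟨Finset.mem_Icc.mpr ⟨hpp.one_le, Nat.le_floor hp.2⟩, hpp⟩
  have h4 : (∑ p ∈ S.filter (fun p : ℕ => (p:ℝ) ≤ y), Real.log (p:ℝ) / p) / Real.log y ≤ 1 + C2 := by
    rw [div_le_iff₀ (by linarith)]
    nlinarith
  linarith

end

end Pool.Agent.TH806.N4
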