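import Pool.Agent.TH971.N4_W2
import Pool.Agent.TH75.N4_AFE
import Pool.Agent.TH110.N4_AFP
import Pool.Agent.TH384.N4_FM
import Pool.Agent.TH989.N4_T2
import Pool.Agent.TH445.N4_X4L
import Pool.Agent.TH73.N4_FIN
import Pool.Agent.TH298.N4_WIN
import Pool.Agent.TH822.N4_MGKR
import Pool.Agent.TH286.N4_TB0
import Pool.Agent.TH286.N4_TW2
import Pool.Agent.TH197.N4_TW1
import Pool.Agent.TH817.N4_ASM
import Pool.Agent.TH806.N4.DL2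

set_option autoImplicit false

/-!
N4: assembly of the relative theorem.
-/

namespace Pool.Agent.TH806.N4

theorem a_DL : P_DL := t_DL TH971.N4_W2.t_D4

theorem a_AFP : P_AFP := TH110.N4_AFP.t_AFP TH75.N4_AFE.t_AFE

theorem a_TB : P_TB0 := TH286.N4_TB0.t_TB0 t_TA

theorem a_TW1 : P_TW1 := TH197.N4_TW1.t_TW1 a_DL TH384.N4_FM.t_FM

theorem a_TW2 : P_TW2 := TH286.N4_TW2.t_TW2 a_DL

theorem a_T4 : P_T4 ∧ P_W4 :=
  TH817.N4_ASM.t_ASM TH822.N4_MGKR.t_MG TH822.N4_MGKR.t_KR a_AFP a_TB a_TW1 a_TW2 TH971.N4_W2.t_W2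
    TH445.N4_X4L.t_X4L

theorem a_WIN : P_WIN := TH298.N4_WIN.t_WIN a_T4.1 TH971.N4_W2.t_W2 TH989.N4_T2.t_T2 a_T4.2

theorem a_FIN : P_FIN := TH73.N4_FIN.t_FIN a_T4.2 a_WIN

end Pool.Agent.TH806.N4
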