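import Pool.Agent.TH806.N4.TorG

set_option autoImplicit false

/-!
N4: the absolute bound over the torus at the scale `L`.
-/

namespace Pool.Agent.TH806.N4

open Finset MeasureTheory Complex MonoidAlgebra
open Pool.Agent.W184.NZ
open Pool.Agent.TH806

noncomputable section

variable {N : ℕ}

/-- the scale weights -/
def qL (L : ℝ) (p : ℕ) : ℝ := Real.log p / L

lemma qL_nonneg {L : ℝ} (hL : 1 ≤ L) (p : ℕ) : 0 ≤ qL L p := by
  unfold qL
  exact div_nonneg (Real.log_natCast_nonneg p) (by linarith)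

lemma qL_sum : ∃ C : ℝ, 0 ≤ C ∧ ∀ (N : ℕ) (L : ℝ), 1 ≤ L → (∀ p : ℕ, p < N → Real.log p ≤ 3 * L) →
    ∀ S : Finset ℕ, S ⊆ Nat.primesBelow N → ∑ p ∈ S, qL L p / p ≤ C := by
  obtain ⟨C3, hC30, hC3⟩ := err_sum
  refine ⟨C3, hC30, fun N L hL hN S hS => ?_⟩
  refine le_trans (sum_le_sum fun p hp => ?_) (hC3 N L hL hN S hS)
  unfold qL
  have h4 : 0 ≤ (p:ℝ) ^ (-(3 / 2 : ℝ)) := Real.rpow_nonneg (Nat.cast_nonneg _) _
  have h6 : 0 ≤ Real.log p := Real.log_natCast_nonneg p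
  have h7 : 0 ≤ Real.log p / L / p := by positivity
  have e : 25 / L * (Real.log p / p) = 25 * (Real.log p / L / p) := by ring
  rw [e]
  linarith

/-- one prime, the Poisson parameter -/
lemma ap_near {L : ℝ} {z : ℂ} {δ τ : ℝ} (h : Par L N z δ τ) (p : Ix N) :
    ‖ap N z p - ((xh p.1 : ℝ) : ℂ)‖ ≤ xh p.1 * (qL L p.1 / 10) := by
  obtain ⟨z1, z2, z3⟩ := h.zl (ix_lt p) (by have := ix_two p; omega)
  have eE : ‖Complex.exp (-(z * (Real.log p.1 : ℝ))) - 1‖ ≤ 1 / 10 * (Real.log p.1 / L) := by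
    have := Complex.norm_exp_sub_one_le (x := -(z * (Real.log p.1 : ℝ))) (by rw [norm_neg]; linarith)
    rw [norm_neg] at this
    linarith
  have e1 : ap N z p - ((xh p.1 : ℝ) : ℂ) = ((xh p.1 : ℝ) : ℂ) * (Complex.exp (-(z * (Real.log p.1 : ℝ))) - 1) := by
    rw [ap_eq p]; ring
  rw [e1, norm_mul, Complex.norm_real, Real.norm_eq_abs, abs_of_pos (xh_pos _)]
  refine mul_le_mul_of_nonneg_left ?_ (xh_pos _).le
  unfold qL
  linarith

lemma ub_near {L : ℝ} {z : ℂ} {δ τ : ℝ} (h : Par L N z δ τ) (p : Ix N) :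
    ∃ W : ℂ, ‖W‖ = 1 ∧ ‖ub N (wp δ τ) p - ((xh p.1 : ℝ) : ℂ) * W‖ ≤ xh p.1 * (2 * qL L p.1) ∧
    ‖ub N (wp δ τ) p - ((xh p.1 : ℝ) : ℂ) * W‖ ≤ xh p.1 := by
  have hlog : 0 ≤ Real.log p.1 := Real.log_natCast_nonneg _
  refine ⟨Complex.exp (((-(τ * Real.log p.1) : ℝ) : ℂ) * I), Complex.norm_exp_ofReal_mul_I _, ?_⟩
  set D := Real.exp (-(δ * Real.log p.1)) with hD
  have eD : |D - 1| ≤ 2 * qL L p.1 ∧ |D - 1| ≤ 1 := by
    have hδ : 0 ≤ δ * Real.log p.1 := mul_nonneg h.d0 hlog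
    have hδ2 : δ * Real.log p.1 ≤ 2 * qL L p.1 := by
      calc δ * Real.log p.1 ≤ 2 / L * Real.log p.1 := mul_le_mul_of_nonneg_right h.d1 hlog
        _ = _ := by unfold qL; ring
    have h5 : D ≤ 1 := Real.exp_le_one_iff.mpr (by linarith)
    have h6 : 0 < D := Real.exp_pos _
    have h7 : 1 - δ * Real.log p.1 ≤ D := by have := Real.add_one_le_exp (-(δ * Real.log p.1)); linarith
    rw [abs_of_nonpos (by linarith)]
    exact ⟨by linarith, by linarith⟩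
  have e1 : ub N (wp δ τ) p - ((xh p.1 : ℝ) : ℂ) * Complex.exp (((-(τ * Real.log p.1) : ℝ) : ℂ) * I) =
      ((xh p.1 : ℝ) : ℂ) * (((D - 1 : ℝ) : ℂ) * Complex.exp (((-(τ * Real.log p.1) : ℝ) : ℂ) * I)) := by
    rw [ub_eq p, ← hD, Complex.ofReal_sub, Complex.ofReal_one]; ring
  rw [e1, norm_mul, norm_mul, Complex.norm_exp_ofReal_mul_I, Complex.norm_real, Complex.norm_real, Real.norm_eq_abs,
    Real.norm_eq_abs, abs_of_pos (xh_pos _), mul_one]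
  have hx := (xh_pos p.1).le
  exact ⟨mul_le_mul_of_nonneg_left eD.1 hx, by nlinarith [mul_le_mul_of_nonneg_left eD.2 hx]⟩

lemma fam_par {L : ℝ} {z : ℂ} {δ τ : ℝ} (h : Par L N z δ τ) : Fam N (qL L) (ap N z) (ub N (wp δ τ)) where
  q0 := qL_nonneg h.L1
  q3 := fun p => by
    unfold qL
    rw [div_le_iff₀ (by linarith [h.L1])]
    exact h.hN p.1 (ix_lt p)
  ha := ap_near h
  na := ap_le h
  hu := ub_near h
  nu := fun p => (ub_le h p).trans (by linarith [xh_pos p.1])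

lemma HP_eq (z w : ℂ) (θ : Ix N → ℝ) : HP (ap N z) (ub N w) θ = ‖PP (ap N z) θ‖ * ‖ZT w θ‖ ^ 2 := by
  unfold HP PP ZT
  rw [prod_mul_distrib, norm_prod, norm_prod, prod_pow]

theorem t_TA : P_TA := by
  intro c
  obtain ⟨Cq, _, hCq⟩ := qL_sum
  obtain ⟨C, hC0, hC⟩ := tor_abs c Cq
  refine ⟨C, hC0, ?_⟩
  intro y L a δ τ z N J Rs g φ G hG _ ha hP hyL hyN
  have h := hC y L a N J Rs g φ G (qL L) (ap N z) (ub N (wp δ τ)) hG ha (fam_par hP)
    (hCq N L hP.L1 hP.hN) hP.L1 hP.hN hyL hyN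
  simp_rw [HP_eq] at h
  exact h

end

end Pool.Agent.TH806.N4
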