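import Pool.Agent.TH806.N4.Defs2

set_option autoImplicit false

/-!
N4: absolute bound over the torus for general local parameters and general multipliers.
-/

namespace Pool.Agent.TH806.N4

open Finset MeasureTheory Complex MonoidAlgebra
open Pool.Agent.W184.NZ
open Pool.Agent.TH806

noncomputable section

variable {N : ℕ}

/-- weights of the exponentials -/
def Ag (R : ℕ) : Fin 5 → ℝ := ![(1 + Real.exp (-(R:ℝ))) ^ 2, 2 * Real.exp (-(R:ℝ)),
  2 * Real.exp (-(R:ℝ)), 2 * Real.exp (-(R:ℝ)), 2 * Real.exp (-(R:ℝ))]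

lemma Ag_nonneg (R : ℕ) (i : Fin 5) : 0 ≤ Ag R i := by
  fin_cases i <;> simp [Ag] <;> positivity

lemma MB.le_sum {a : ℝ} {R : ℕ} {I : Finset ℕ} {g : DA} {φ : ℂ → ℝ} (h : MB a R I g φ) (z : ℂ) :
    φ z ≤ ∑ j : Fin 5, Ag R j * Real.exp ((cf a j * z).re) := by
  have h1 := h.up z
  have h2 := norm_exp_le z
  have h3 : ((((2 * a : ℝ) : ℂ)) * z).re = 2 * a * z.re := by
    rw [Complex.re_ofReal_mul]
  have h4 : 0 ≤ 2 * Real.exp (-(R:ℝ)) := by positivity
  have h5 := mul_le_mul_of_nonneg_left h2 h4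
  rw [Fin.sum_univ_five]
  simp only [Ag, cf, Matrix.cons_val_zero, Matrix.cons_val_one, Matrix.cons_val]
  rw [h3]
  linarith

/-- the product of the local factors -/
def HP (α u : Ix N → ℂ) (θ : Ix N → ℝ) : ℝ := ∏ p : Ix N, (‖Pk (α p) (θ p)‖ * ‖(1 - u p * ec (θ p))⁻¹‖ ^ 2)

lemma HP_nonneg (α u : Ix N → ℂ) (θ : Ix N → ℝ) : 0 ≤ HP α u θ := prod_nonneg fun _ _ => by positivity

lemma HP_cont {α u : Ix N → ℂ} (hα : ∀ p, ‖α p‖ < 1) (hu : ∀ p, ‖u p‖ < 1) : Continuous (HP α u) := by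
  unfold HP
  refine continuous_finsetProd _ fun p _ => ?_
  have h1 : Continuous fun x : ℝ => ‖Pk (α p) x‖ * ‖(1 - u p * ec x)⁻¹‖ ^ 2 :=
    (Pk_cont (hα p)).norm.mul ((geo_cont (hu p) continuous_id).norm.pow 2)
  exact h1.comp (continuous_apply p)

lemma prod_Hf' (α u : Ix N → ℂ) (J : ℕ) (a : ℝ) {I : ℕ → Finset ℕ} (hI : ∀ i < J, I i ⊆ Nat.primesBelow N)
    (s : Fin J → Fin 5) (θ : Ix N → ℝ) :
    ∏ p : Ix N, Hf (α p) (u p) (cc J a I s p) (θ p) =
      HP α u θ * Real.exp (∑ i : Fin J, (cf a (s i) * PT θ (I i)).re) := by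
  unfold Hf HP
  rw [prod_mul_distrib, ← Real.exp_sum]
  congr 2
  have h1 : ∀ p : Ix N, (cc J a I s p * ec (θ p)).re = ∑ i : Fin J,
      (cf a (s i) * (if p.1 ∈ I i then ((p.1 : ℕ) : ℂ) ^ (-(1 / 2) : ℂ) * ec (θ p) else 0)).re := by
    intro p
    unfold cc
    rw [sum_mul, Complex.re_sum]
    refine sum_congr rfl fun i _ => ?_
    split_ifs
    · rw [mul_assoc]
    · simp
  rw [sum_congr rfl fun p _ => h1 p, sum_comm]
  refine sum_congr rfl fun i _ => ?_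
  rw [PT_eq θ (hI i i.2), mul_sum, Complex.re_sum]

/-- the average of the product -/
theorem tor_bound' {α u : Ix N → ℂ} (hz : ∀ p : Ix N, ‖α p‖ < 1) (hw : ∀ p : Ix N, ‖u p‖ < 1)
    {J : ℕ} {a : ℝ} {R : ℕ → ℕ} {I : ℕ → Finset ℕ} {g : ℕ → DA} {φ : ℕ → ℂ → ℝ}
    (hφ : ∀ i, MB a (R i) (I i) (g i) (φ i))
    (hI : ∀ i < J, I i ⊆ Nat.primesBelow N) (hd : ∀ i j, i < j → Disjoint (I i) (I j))
    {u0 : ℕ → ℝ} {u1 : ℕ → Fin 5 → ℝ}
    (h0 : ∀ p : Ix N, (∀ i < J, p.1 ∉ I i) → ∫ x, Hf (α p) (u p) 0 x ∂uu ≤ Real.exp (u0 p.1))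
    (h1 : ∀ p : Ix N, ∀ i < J, p.1 ∈ I i → ∀ j : Fin 5,
      ∫ x, Hf (α p) (u p) (cf a j * ((p.1 : ℕ) : ℂ) ^ (-(1 / 2) : ℂ)) x ∂uu ≤ Real.exp (u1 p.1 j)) :
    ∫ θ, HP α u θ * ∏ i ∈ range J, φ i (PT θ (I i)) ∂(TT N) ≤
      Real.exp (∑ p ∈ (Nat.primesBelow N).filter (fun p => ∀ i < J, p ∉ I i), u0 p) *
      ∏ i ∈ range J, ∑ j : Fin 5, Ag (R i) j * Real.exp (∑ p ∈ I i, u1 p j) := by
  have hgt : ∀ θ : Ix N → ℝ, ∏ i ∈ range J, φ i (PT θ (I i)) ≤ ∑ s : Fin J → Fin 5, (∏ i : Fin J, Ag (R i) (s i)) *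
      Real.exp (∑ i : Fin J, (cf a (s i) * PT θ (I i)).re) := by
    intro θ
    rw [Finset.prod_range]
    have h1 : ∏ i : Fin J, φ i (PT θ (I i)) ≤
        ∏ i : Fin J, ∑ j : Fin 5, Ag (R i) j * Real.exp ((cf a j * PT θ (I i)).re) :=
      prod_le_prod (fun i _ => (hφ i).nn _) fun i _ => (hφ i).le_sum _
    refine h1.trans (le_of_eq ?_)
    rw [Fintype.prod_sum]
    refine sum_congr rfl fun s _ => ?_
    rw [prod_mul_distrib, Real.exp_sum]
  have hHc : ∀ s : Fin J → Fin 5, Continuous fun θ : Ix N → ℝ =>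
      ∏ p : Ix N, Hf (α p) (u p) (cc J a I s p) (θ p) := fun s =>
    continuous_finsetProd _ fun p _ => (Hf_cont (hz p) (hw p) _).comp (continuous_apply p)
  have hHi : ∀ s : Fin J → Fin 5, Integrable (fun θ : Ix N → ℝ =>
      ∏ p : Ix N, Hf (α p) (u p) (cc J a I s p) (θ p)) (TT N) := by
    intro s
    refine Integrable.of_bound (C := ∏ p : Ix N, (2 * (1 - ‖α p‖)⁻¹ * (1 - ‖u p‖)⁻¹ ^ 2 *
      Real.exp ‖cc J a I s p‖)) (hHc s).aestronglyMeasurable (Filter.Eventually.of_forall fun θ => ?_)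
    rw [norm_prod]
    refine prod_le_prod (fun p _ => norm_nonneg _) fun p _ => ?_
    rw [Real.norm_eq_abs, abs_of_nonneg (Hf_nonneg _ _ _ _)]
    exact Hf_bdd (hz p) (hw p) _ _
  have step1 : ∫ θ, HP α u θ * ∏ i ∈ range J, φ i (PT θ (I i)) ∂(TT N) ≤
      ∫ θ, ∑ s : Fin J → Fin 5, (∏ i : Fin J, Ag (R i) (s i)) *
        ∏ p : Ix N, Hf (α p) (u p) (cc J a I s p) (θ p) ∂(TT N) := by
    refine integral_mono_of_nonneg (Filter.Eventually.of_forall fun θ => ?_)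
      (integrable_finsetSum _ fun s _ => (hHi s).const_mul _) (Filter.Eventually.of_forall fun θ => ?_)
    · exact mul_nonneg (HP_nonneg _ _ _) (prod_nonneg fun i _ => (hφ i).nn _)
    · simp only
      calc HP α u θ * ∏ i ∈ range J, φ i (PT θ (I i)) ≤ HP α u θ *
          ∑ s : Fin J → Fin 5, (∏ i : Fin J, Ag (R i) (s i)) *
            Real.exp (∑ i : Fin J, (cf a (s i) * PT θ (I i)).re) :=
            mul_le_mul_of_nonneg_left (hgt θ) (HP_nonneg _ _ _)
        _ = _ := by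
            rw [mul_sum]
            refine sum_congr rfl fun s _ => ?_
            rw [prod_Hf' α u J a hI s θ]; ring
  refine step1.trans ?_
  rw [integral_finsetSum _ fun s _ => (hHi s).const_mul _]
  have step2 : ∀ s : Fin J → Fin 5, ∫ θ, (∏ i : Fin J, Ag (R i) (s i)) *
        ∏ p : Ix N, Hf (α p) (u p) (cc J a I s p) (θ p) ∂(TT N) ≤
      Real.exp (∑ p ∈ (Nat.primesBelow N).filter (fun p => ∀ i < J, p ∉ I i), u0 p) *
        ∏ i : Fin J, (Ag (R i) (s i) * Real.exp (∑ p ∈ I i, u1 p (s i))) := by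
    intro s
    rw [integral_const_mul]
    unfold TT
    rw [integral_fintype_prod_eq_prod (𝕜 := ℝ) (f := fun (p : Ix N) (x : ℝ) =>
      Hf (α p) (u p) (cc J a I s p) x)]
    -- exponent at p
    set V : ℕ → ℝ := fun q => (∑ i : Fin J, if q ∈ I i then u1 q (s i) else 0) +
      (if (∀ i < J, q ∉ I i) then u0 q else 0) with hV
    have hp : ∀ p : Ix N, ∫ x, Hf (α p) (u p) (cc J a I s p) x ∂uu ≤ Real.exp (V p.1) := by
      intro p
      by_cases hex : ∀ i < J, p.1 ∉ I i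
      · have e1 : cc J a I s p = 0 := by
          unfold cc
          exact sum_eq_zero fun i _ => if_neg (hex i i.2)
        have e2 : V p.1 = u0 p.1 := by
          rw [hV]; simp only
          rw [sum_eq_zero fun (i : Fin J) _ => if_neg (hex i i.2), if_pos hex, zero_add]
        rw [e1, e2]; exact h0 p hex
      · push Not at hex
        obtain ⟨i, hi, hpi⟩ := hex
        have huniq : ∀ j : Fin J, j ≠ ⟨i, hi⟩ → p.1 ∉ I j := by
          intro j hj hpj
          have hne : (j : ℕ) ≠ i := fun h => hj (Fin.ext h)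
          rcases lt_or_gt_of_ne hne with h | h
          · exact disjoint_left.mp (hd _ _ h) hpj hpi
          · exact disjoint_left.mp (hd _ _ h) hpi hpj
        have e1 : cc J a I s p = cf a (s ⟨i, hi⟩) * ((p.1 : ℕ) : ℂ) ^ (-(1 / 2) : ℂ) := by
          unfold cc
          rw [sum_eq_single ⟨i, hi⟩ (fun j _ hj => if_neg (huniq j hj)) (fun h => absurd (mem_univ _) h)]
          exact if_pos hpi
        have e2 : V p.1 = u1 p.1 (s ⟨i, hi⟩) := by
          rw [hV]; simp only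
          rw [sum_eq_single ⟨i, hi⟩ (fun j _ hj => if_neg (huniq j hj)) (fun h => absurd (mem_univ _) h),
            if_pos hpi, if_neg (by push Not; exact ⟨i, hi, hpi⟩), add_zero]
        rw [e1, e2]; exact h1 p i hi hpi _
    have hprod : ∏ p : Ix N, ∫ x, Hf (α p) (u p) (cc J a I s p) x ∂uu ≤ Real.exp (∑ p : Ix N, V p.1) := by
      rw [Real.exp_sum]
      exact prod_le_prod (fun p _ => Hf_int_nonneg _ _ _) fun p _ => hp p
    have hsum : ∑ p : Ix N, V p.1 = (∑ p ∈ (Nat.primesBelow N).filter (fun p => ∀ i < J, p ∉ I i), u0 p) +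
        ∑ i : Fin J, ∑ p ∈ I i, u1 p (s i) := by
      rw [Finset.sum_coe_sort (Nat.primesBelow N) V, hV]
      simp only
      rw [sum_add_distrib, sum_comm, add_comm, sum_filter]
      congr 1
      refine sum_congr rfl fun i _ => ?_
      rw [← sum_filter]
      refine sum_congr ?_ fun _ _ => rfl
      ext q
      rw [mem_filter]
      exact ⟨fun h => h.2, fun h => ⟨hI i i.2 h, h⟩⟩
    have hA : 0 ≤ ∏ i : Fin J, Ag (R i) (s i) := prod_nonneg fun i _ => Ag_nonneg _ _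
    refine (mul_le_mul_of_nonneg_left hprod hA).trans (le_of_eq ?_)
    have e3 : Real.exp (∑ i : Fin J, ∑ p ∈ I i, u1 p (s i)) =
        ∏ i : Fin J, Real.exp (∑ p ∈ I i, u1 p (s i)) := Real.exp_sum _ _
    rw [hsum, Real.exp_add, e3, prod_mul_distrib]
    ring
  refine (sum_le_sum fun s _ => step2 s).trans (le_of_eq ?_)
  rw [← mul_sum, Finset.prod_range, Fintype.prod_sum]

/-! ### one prime -/

lemma p149 {p : ℕ} (hp : p.Prime) (h : 144 ≤ p) : 149 ≤ p := by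
  by_contra hcon
  push Not at hcon
  interval_cases p <;> revert hp <;> norm_num

lemma xh_le' {p : ℕ} (hp : 149 ≤ p) : 1017 / 1000 * xh p ≤ 1 / 12 := by
  have h1 := xh_sq (by omega : p ≠ 0)
  have h2 : (1:ℝ) / p ≤ 1 / 149 := by
    have : (149:ℝ) ≤ p := by exact_mod_cast hp
    gcongr
  have h3 := xh_pos p
  nlinarith

/-- the local parameters: `α` near `p^{-1/2}`, `u` near `p^{-1/2}` times a number of modulus one -/
structure Fam (N : ℕ) (q : ℕ → ℝ) (α u : Ix N → ℂ) : Prop where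
  q0 : ∀ p, 0 ≤ q p
  q3 : ∀ p : Ix N, q p.1 ≤ 3
  ha : ∀ p : Ix N, ‖α p - ((xh p.1 : ℝ) : ℂ)‖ ≤ xh p.1 * (q p.1 / 10)
  na : ∀ p : Ix N, ‖α p‖ ≤ 117 / 100 * xh p.1
  hu : ∀ p : Ix N, ∃ W : ℂ, ‖W‖ = 1 ∧ ‖u p - ((xh p.1 : ℝ) : ℂ) * W‖ ≤ xh p.1 * (2 * q p.1) ∧
    ‖u p - ((xh p.1 : ℝ) : ℂ) * W‖ ≤ xh p.1
  nu : ∀ p : Ix N, ‖u p‖ ≤ 1017 / 1000 * xh p.1

variable {q : ℕ → ℝ} {α u : Ix N → ℂ}

lemma Fam.la (h : Fam N q α u) (p : Ix N) : ‖α p‖ ≤ 84 / 100 := by
  have := h.na p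
  have := xh_two (ix_two p)
  linarith

lemma Fam.lu (h : Fam N q α u) (p : Ix N) : ‖u p‖ ≤ 73 / 100 := by
  have := h.nu p
  have := xh_two (ix_two p)
  linarith

lemma Fam.small (h : Fam N q α u) (p : Ix N) : ∫ x, Hf (α p) (u p) 0 x ∂uu ≤ Real.exp 6 := by
  have ha := h.la p
  have hu := h.lu p
  have h1 : ∀ x : ℝ, Hf (α p) (u p) 0 x ≤ 200 := by
    intro x
    refine (Hf_bdd (by linarith) (by linarith) 0 x).trans ?_
    rw [norm_zero, Real.exp_zero, mul_one]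
    have a1 : (1 - ‖α p‖)⁻¹ ≤ 25 / 4 := by
      rw [inv_le_comm₀ (by linarith) (by norm_num)]; norm_num; linarith
    have a2 : (1 - ‖u p‖)⁻¹ ≤ 100 / 27 := by
      rw [inv_le_comm₀ (by linarith) (by norm_num)]; norm_num; linarith
    have a3 : 0 < (1 - ‖α p‖)⁻¹ := inv_pos.mpr (by linarith)
    have a4 : 0 < (1 - ‖u p‖)⁻¹ := inv_pos.mpr (by linarith)
    calc _ ≤ 2 * (25 / 4) * (100 / 27 : ℝ) ^ 2 := by gcongr
      _ ≤ 200 := by norm_num
  have h2 : (200:ℝ) ≤ Real.exp 6 := by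
    have e : Real.exp 6 = Real.exp 1 ^ 6 := by rw [← Real.exp_nat_mul]; norm_num
    rw [e]
    have : (2.7:ℝ) ≤ Real.exp 1 := by have := Real.exp_one_gt_d9; linarith
    calc (200:ℝ) ≤ 2.7 ^ 6 := by norm_num
      _ ≤ _ := by gcongr
  calc ∫ x, Hf (α p) (u p) 0 x ∂uu ≤ ∫ x, (200:ℝ) ∂uu :=
        integral_mono_of_nonneg (Filter.Eventually.of_forall fun x => Hf_nonneg _ _ _ _) (integrable_const _)
          (Filter.Eventually.of_forall h1)
    _ = 200 := by simp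
    _ ≤ _ := h2

/-- the error of one prime -/
def eq1 (q : ℕ → ℝ) (p : ℕ) : ℝ := 30 * (q p / p) + 1400 * (p : ℝ) ^ (-(3 / 2 : ℝ))

lemma Fam.big (h : Fam N q α u) (p : Ix N) (hp : 144 ≤ p.1) {c : ℂ} (hc : ‖c‖ ≤ 6) {S : ℝ}
    (hS : ∀ W : ℂ, ‖W‖ = 1 → ‖1 + W + c / 2‖ ^ 2 ≤ S) :
    ∫ x, Hf (α p) (u p) (c * ((p.1 : ℕ) : ℂ) ^ (-(1 / 2) : ℂ)) x ∂uu ≤
      Real.exp ((-1 + S) * (1 / (p.1:ℝ)) + eq1 q p.1) := by
  have hpr : p.1.Prime := (Nat.mem_primesBelow.mp p.2).2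
  have hp0 : p.1 ≠ 0 := by omega
  have hx := xh_pos p.1
  have hx12 := xh_le' (p149 hpr hp)
  rw [half_eq hp0]
  have h1 := one_prime (x := 1017 / 1000 * xh p.1) (by positivity) hx12 (a := α p) (u := u p)
    (c := c * ((xh p.1 : ℝ) : ℂ)) ((h.na p).trans (by linarith)) (h.nu p) (by
      rw [norm_mul, Complex.norm_real, Real.norm_eq_abs, abs_of_pos hx]
      have := mul_le_mul_of_nonneg_right hc hx.le
      linarith)
  refine h1.trans (Real.exp_le_exp.mpr ?_)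
  obtain ⟨W, hWn, hW1, hW2⟩ := h.hu p
  have hq0 := h.q0 p.1
  have hq3 := h.q3 p
  have ha1 := h.ha p
  have hna := h.na p
  set x := xh p.1 with hxd
  set q' := q p.1 with hq'
  have hx2 : x ^ 2 = 1 / (p.1 : ℝ) := xh_sq hp0
  have hx3 : x ^ 3 = (p.1 : ℝ) ^ (-(3 / 2 : ℝ)) := xh_cube hp0
  -- normalised parameters
  set F1 := α p - (x : ℂ) with hF1
  set F2 := u p - (x : ℂ) * W with hF2
  have hap : α p = (x : ℂ) + F1 := by rw [hF1]; ring
  have hub : u p = (x : ℂ) * W + F2 := by rw [hF2]; ring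
  -- first term
  have t1 : -((α p) ^ 2).re ≤ x ^ 2 * (-1 + 3 / 10 * q') := by
    have e1 : (α p) ^ 2 = ((x ^ 2 : ℝ) : ℂ) + F1 * ((x : ℂ) + α p) := by rw [hap]; push_cast; ring
    rw [e1, Complex.add_re, Complex.ofReal_re]
    have h8 : |(F1 * ((x : ℂ) + α p)).re| ≤ x * (q' / 10) * (217 / 100 * x) := by
      refine (Complex.abs_re_le_norm _).trans ?_
      rw [norm_mul]
      refine mul_le_mul ha1 ?_ (norm_nonneg _) (by positivity)
      calc ‖(x : ℂ) + α p‖ ≤ ‖(x:ℂ)‖ + ‖α p‖ := norm_add_le _ _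
        _ ≤ x + 117 / 100 * x := by
            rw [Complex.norm_real, Real.norm_eq_abs, abs_of_pos hx]; linarith
        _ = _ := by ring
    have h9 := (abs_le.mp h8).1
    have h10 : 0 ≤ x ^ 2 * q' := by positivity
    nlinarith
  -- second term
  set A := 1 + W + c / 2 with hA
  set F := (((F1.re : ℝ) : ℂ) + F2) with hF
  have e9 : α p + (starRingEnd ℂ) (α p) + 2 * u p + c * ((x : ℝ) : ℂ) = 2 * ((x : ℂ) * A + F) := by
    rw [hap, hub, map_add, Complex.conj_ofReal, hF, hA]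
    have : ((F1.re : ℝ) : ℂ) = (F1 + (starRingEnd ℂ) F1) / 2 := Complex.re_eq_add_conj F1
    rw [this]
    ring
  have hAn : ‖A‖ ≤ 5 := by
    calc ‖A‖ ≤ ‖(1:ℂ)‖ + ‖W‖ + ‖c / 2‖ := norm_add₃_le
      _ ≤ 1 + 1 + 3 := by
          rw [norm_one, hWn, norm_div, Complex.norm_ofNat]; linarith
      _ = 5 := by norm_num
  have hFn : ‖F‖ ≤ x * (21 / 10 * q') ∧ ‖F‖ ≤ 13 / 10 * x := by
    have a1 : ‖F‖ ≤ ‖F1‖ + ‖F2‖ := by
      calc ‖F‖ ≤ ‖((F1.re : ℝ) : ℂ)‖ + ‖F2‖ := norm_add_le _ _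
        _ = |F1.re| + ‖F2‖ := by rw [Complex.norm_real, Real.norm_eq_abs]
        _ ≤ _ := by linarith [Complex.abs_re_le_norm F1]
    have a2 : x * (q' / 10) ≤ 3 / 10 * x := by nlinarith
    exact ⟨by linarith, by linarith⟩
  have t2 : ‖α p + (starRingEnd ℂ) (α p) + 2 * u p + c * ((x : ℝ) : ℂ)‖ ^ 2 / 4 ≤
      x ^ 2 * (‖A‖ ^ 2 + 24 * q') := by
    rw [e9, norm_mul, Complex.norm_ofNat]
    have a3 : ‖(x : ℂ) * A + F‖ ≤ x * ‖A‖ + ‖F‖ := by
      refine (norm_add_le _ _).trans ?_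
      rw [norm_mul, Complex.norm_real, Real.norm_eq_abs, abs_of_pos hx]
    have a4 : ‖(x : ℂ) * A + F‖ ^ 2 ≤ (x * ‖A‖ + ‖F‖) ^ 2 := pow_le_pow_left₀ (norm_nonneg _) a3 2
    have a5 : x * ‖A‖ * ‖F‖ ≤ 5 * x * ‖F‖ := by
      have := mul_le_mul_of_nonneg_left hAn hx.le
      have := mul_le_mul_of_nonneg_right this (norm_nonneg F)
      linarith
    have a6 : ‖F‖ * ‖F‖ ≤ 13 / 10 * x * ‖F‖ := mul_le_mul_of_nonneg_right hFn.2 (norm_nonneg _)
    have a7 : x * ‖F‖ ≤ x * (x * (21 / 10 * q')) := mul_le_mul_of_nonneg_left hFn.1 hx.le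
    have a8 : 0 ≤ x ^ 2 * q' := by positivity
    nlinarith
  have t3 := hS W hWn
  have t4 : 0 ≤ x ^ 2 * q' := by positivity
  have t5 : x ^ 2 * (-1 + ‖A‖ ^ 2) ≤ (-1 + S) * (1 / (p.1:ℝ)) := by
    rw [← hx2]
    have := mul_le_mul_of_nonneg_left t3 (sq_nonneg x)
    nlinarith
  have t6 : eq1 q p.1 = 30 * (x ^ 2 * q') + 1400 * x ^ 3 := by
    unfold eq1
    rw [hx2, hx3]; ring
  have t7 : 1300 * (1017 / 1000 * x) ^ 3 ≤ 1400 * x ^ 3 := by
    have : 0 ≤ x ^ 3 := by positivity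
    have e : (1017 / 1000 * x) ^ 3 = (1017 / 1000) ^ 3 * x ^ 3 := by ring
    rw [e]
    nlinarith
  rw [t6]
  nlinarith

/-! ### the final absolute bound -/

lemma MG.evt_eq {c y a : ℝ} {J Rs : ℕ} {g : ℕ → DA} {φ : ℕ → ℂ → ℝ} {G : DA} (h : MG c y J Rs a g φ G)
    (θ : Ix N → ℝ) : evt θ G = ((∏ i ∈ range J, φ i (PT θ (II y i)) : ℝ) : ℂ) := by
  rw [h.eq, map_prod, Complex.ofReal_prod]
  exact prod_congr rfl fun i _ => (h.blk i).evt N θ

lemma MG.evl_eq {c y a : ℝ} {J Rs : ℕ} {g : ℕ → DA} {φ : ℕ → ℂ → ℝ} {G : DA} (h : MG c y J Rs a g φ G)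
    (t : ℝ) : ev t G = ((∏ i ∈ range J, φ i (PI (II y i) (1 / 2 + t * Complex.I)) : ℝ) : ℂ) := by
  rw [h.eq, map_prod, Complex.ofReal_prod]
  exact prod_congr rfl fun i _ => (h.blk i).evl t

lemma MG.re_nonneg {c y a : ℝ} {J Rs : ℕ} {g : ℕ → DA} {φ : ℕ → ℂ → ℝ} {G : DA} (h : MG c y J Rs a g φ G)
    (θ : Ix N → ℝ) : 0 ≤ (evt θ G).re := by
  rw [h.evt_eq, Complex.ofReal_re]
  exact prod_nonneg fun i _ => (h.blk i).nn _

/-- first exponent -/
def v0 (q : ℕ → ℝ) (p : ℕ) : ℝ := if p < 144 then 6 else 3 * (1 / (p:ℝ)) + eq1 q p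

/-- exponents in the blocks -/
def v1 (a : ℝ) (q : ℕ → ℝ) (p : ℕ) (j : Fin 5) : ℝ :=
  if j = 0 then (3 + 4 * a + a ^ 2) * (1 / (p:ℝ)) + eq1 q p else 24 * (1 / (p:ℝ)) + eq1 q p

lemma block_bound' {a c : ℝ} (ha : |a| ≤ 1 / 16) {q : ℕ → ℝ} {I : Finset ℕ} (hv : vI I ≤ c) (R : ℕ) :
    ∑ j : Fin 5, Ag R j * Real.exp (∑ p ∈ I, v1 a q p j) ≤
      Real.exp (∑ p ∈ I, v1 a q p 0) * Real.exp ((3 + 8 * Real.exp (25 * c)) * Real.exp (-(R:ℝ))) := by
  obtain ⟨ha1, ha2⟩ := abs_le.mp ha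
  have hv0 := vI_nonneg I
  set S0 := ∑ p ∈ I, v1 a q p 0 with hS0
  have h1 : ∀ j : Fin 5, j ≠ 0 → ∑ p ∈ I, v1 a q p j ≤ S0 + 25 * c := by
    intro j hj
    have h2 : ∑ p ∈ I, v1 a q p j ≤ ∑ p ∈ I, (v1 a q p 0 + 25 * (1 / p)) := by
      refine sum_le_sum fun p _ => ?_
      unfold v1
      rw [if_neg hj, if_pos rfl]
      have h5 : (0:ℝ) ≤ 1 / p := by positivity
      have h6 : 0 ≤ 3 + 4 * a + a ^ 2 := by nlinarith
      nlinarith [mul_nonneg h6 h5]
    refine h2.trans ?_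
    rw [sum_add_distrib, ← mul_sum]
    have : ∑ p ∈ I, 1 / (p:ℝ) = vI I := rfl
    rw [this]
    linarith
  rw [Fin.sum_univ_five]
  have e1 : Ag R 0 = (1 + Real.exp (-(R:ℝ))) ^ 2 := rfl
  have e2 : ∀ j : Fin 5, j ≠ 0 → Ag R j = 2 * Real.exp (-(R:ℝ)) := by
    intro j hj
    fin_cases j
    · exact absurd rfl hj
    all_goals rfl
  have hR0 : (0:ℝ) ≤ R := Nat.cast_nonneg _
  have hfar : ∀ j : Fin 5, j ≠ 0 → Ag R j * Real.exp (∑ p ∈ I, v1 a q p j) ≤
      Real.exp S0 * (2 * Real.exp (25 * c) * Real.exp (-(R:ℝ))) := by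
    intro j hj
    rw [e2 j hj]
    have h6 : Real.exp (∑ p ∈ I, v1 a q p j) ≤ Real.exp (S0 + 25 * c) := Real.exp_le_exp.mpr (h1 j hj)
    calc _ ≤ 2 * Real.exp (-(R:ℝ)) * Real.exp (S0 + 25 * c) := by gcongr
      _ = _ := by rw [Real.exp_add]; ring
  have f1 := hfar 1 (by decide)
  have f2 := hfar 2 (by decide)
  have f3 := hfar 3 (by decide)
  have f4 := hfar 4 (by decide)
  rw [e1]
  set X := Real.exp (-(R:ℝ)) with hX
  have hX0 : 0 < X := Real.exp_pos _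
  have hX1 : X ≤ 1 := Real.exp_le_one_iff.mpr (by linarith)
  have h8 : (1 + X) ^ 2 ≤ 1 + 3 * X := by nlinarith
  have h9 : (1 + X) ^ 2 * Real.exp S0 ≤ (1 + 3 * X) * Real.exp S0 := mul_le_mul_of_nonneg_right h8 (Real.exp_pos _).le
  have h10 : 1 + (3 + 8 * Real.exp (25 * c)) * X ≤ Real.exp ((3 + 8 * Real.exp (25 * c)) * X) := by
    linarith [Real.add_one_le_exp ((3 + 8 * Real.exp (25 * c)) * X)]
  have h11 := mul_le_mul_of_nonneg_left h10 (Real.exp_pos S0).le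
  nlinarith

theorem tor_abs (c Cq : ℝ) : ∃ C : ℝ, 0 < C ∧ ∀ (y L a : ℝ) (N J Rs : ℕ) (g : ℕ → DA) (φ : ℕ → ℂ → ℝ) (G : DA)
    (q : ℕ → ℝ) (α u : Ix N → ℂ), MG c y J Rs a g φ G → |a| ≤ 1 / 16 → Fam N q α u →
    (∀ S : Finset ℕ, S ⊆ Nat.primesBelow N → ∑ p ∈ S, q p / p ≤ Cq) → 1 ≤ L →
    (∀ p : ℕ, p < N → Real.log p ≤ 3 * L) → Real.log y ≤ L → y < N →
    ∫ θ, HP α u θ * (evt θ G).re ∂(TT N) ≤ C * L ^ 3 * EV J y a := by
  obtain ⟨C2, hC20, hC2⟩ := gap_sum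
  obtain ⟨C3, hC30, hC3⟩ := err_sum
  set CE := 30 * |Cq| + 2 * C3 with hCE
  refine ⟨Real.exp (6 * 144 + (3 * (Real.log 3 + C2) + CE) + (3 * c + CE) +
    (3 + 8 * Real.exp (25 * c)) * 2), Real.exp_pos _, ?_⟩
  intro y L a N J Rs g φ G q α u hG ha hF hq hL hN hyL hyN
  obtain ⟨ha1, ha2⟩ := abs_le.mp ha
  have hB := hG.bl
  have hy := hB.y1
  have hIsub : ∀ i < J, II y i ⊆ Nat.primesBelow N := by
    intro i _ p hp
    rw [mem_II] at hp
    rw [Nat.mem_primesBelow]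
    refine ⟨?_, hp.1⟩
    have h1 : (p:ℝ) ≤ y := hp.2.2.2.trans (bb_le (by linarith) i)
    have h2 : (p:ℝ) < N := lt_of_le_of_lt h1 hyN
    exact_mod_cast h2
  have heq : ∀ S : Finset ℕ, S ⊆ Nat.primesBelow N → ∑ p ∈ S, eq1 q p ≤ CE := by
    intro S hS
    unfold eq1
    rw [sum_add_distrib, ← mul_sum]
    have h1 := hq S hS
    have h2 := hC3 N L hL hN S hS
    have h3 : ∑ p ∈ S, 1400 * (p:ℝ) ^ (-(3 / 2 : ℝ)) ≤ 2 * ∑ p ∈ S, (25 / L * (Real.log p / p) + 1300 * (p : ℝ) ^ (-(3 / 2 : ℝ))) := by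
      rw [mul_sum]
      refine sum_le_sum fun p hp => ?_
      have h4 : 0 ≤ (p:ℝ) ^ (-(3 / 2 : ℝ)) := Real.rpow_nonneg (Nat.cast_nonneg _) _
      have h5 : (1:ℝ) ≤ p := by
        exact_mod_cast (Nat.mem_primesBelow.mp (hS hp)).2.one_le
      have h6 := Real.log_nonneg h5
      have h7 : 0 ≤ 25 / L * (Real.log p / p) := by positivity
      linarith
    have h8 : Cq ≤ |Cq| := le_abs_self _
    linarith
  have hmain := tor_bound' (N := N) (α := α) (u := u) (fun p => by linarith [hF.la p])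
    (fun p => by linarith [hF.lu p]) (J := J) (a := a) (R := RR Rs) (I := II y) hG.blk hIsub hB.rg.dj
    (u0 := v0 q) (u1 := fun p j => v1 a q p j)
    (fun p _ => by
      unfold v0
      split_ifs with h144
      · exact hF.small p
      · have := hF.big p (by omega) (c := 0) (S := 4) (by simp) (fun W hW => by
          have : ‖1 + W + 0 / 2‖ ≤ 2 := by
            rw [zero_div, add_zero]
            calc ‖1 + W‖ ≤ ‖(1:ℂ)‖ + ‖W‖ := norm_add_le _ _
              _ = 2 := by rw [norm_one, hW]; norm_num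
          have h0 := norm_nonneg (1 + W + 0 / 2)
          nlinarith)
        rw [zero_mul] at this
        have e : (-1 + 4 : ℝ) = 3 := by norm_num
        rwa [e] at this)
    (fun p i hi hpi j => by
      have h144 : 144 ≤ p.1 := (hB.rg.pr i p.1 hpi).2.1
      simp only [v1]
      split_ifs with hj
      · subst hj
        have := hF.big p h144 (c := cf a 0) (S := (2 + a) ^ 2) (cf_norm (by linarith) 0) (fun W hW => by
          have e : 1 + W + cf a 0 / 2 = ((1 + a : ℝ) : ℂ) + W := by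
            simp only [cf, Matrix.cons_val_zero]; push_cast; ring
          rw [e]
          have h1 : ‖((1 + a : ℝ) : ℂ) + W‖ ≤ 2 + a := by
            refine (norm_add_le _ _).trans ?_
            rw [hW, Complex.norm_real, Real.norm_eq_abs, abs_of_pos (by linarith)]
            linarith
          exact pow_le_pow_left₀ (norm_nonneg _) h1 2)
        refine this.trans (le_of_eq ?_)
        congr 2
        ring
      · have := hF.big p h144 (c := cf a j) (S := 25) (cf_norm (by linarith) j) (fun W hW => by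
          have h1 : ‖1 + W + cf a j / 2‖ ≤ 5 := by
            calc _ ≤ ‖(1:ℂ)‖ + ‖W‖ + ‖cf a j / 2‖ := norm_add₃_le
              _ ≤ 1 + 1 + 3 := by
                  rw [norm_one, hW, norm_div, Complex.norm_ofNat]
                  linarith [cf_norm (a := a) (by linarith) j]
              _ = 5 := by norm_num
          have h0 := norm_nonneg (1 + W + cf a j / 2)
          nlinarith)
        refine this.trans (le_of_eq ?_)
        congr 2
        norm_num)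
  have hev : ∀ θ : Ix N → ℝ, (evt θ G).re = ∏ i ∈ range J, φ i (PT θ (II y i)) := fun θ => by
    rw [hG.evt_eq, Complex.ofReal_re]
  simp_rw [hev]
  refine hmain.trans ?_
  -- first factor
  have hly : 0 < Real.log y := Real.log_pos (by linarith)
  have F1 : ∑ p ∈ (Nat.primesBelow N).filter (fun p => ∀ i < J, p ∉ II y i), v0 q p ≤
      6 * 144 + (3 * (Real.log (3 * L) - Real.log (Real.log y) + C2) + CE) := by
    rw [← sum_filter_add_sum_filter_not _ (fun p : ℕ => p < 144)]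
    refine add_le_add ?_ ?_
    · calc _ ≤ ∑ p ∈ ((Nat.primesBelow N).filter (fun p => ∀ i < J, p ∉ II y i)).filter (fun p => p < 144), (6:ℝ) := by
            refine sum_le_sum fun p hp => ?_
            rw [mem_filter] at hp
            unfold v0; rw [if_pos hp.2]
        _ ≤ _ := by
            rw [sum_const, nsmul_eq_mul, mul_comm]
            have hcard : (((Nat.primesBelow N).filter (fun p => ∀ i < J, p ∉ II y i)).filter (fun p => p < 144)).card ≤ 144 := by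
              calc _ ≤ (range 144).card := card_le_card (fun p hp => by
                    rw [mem_filter] at hp; exact mem_range.mpr hp.2)
                _ = 144 := card_range _
            have : ((((Nat.primesBelow N).filter (fun p => ∀ i < J, p ∉ II y i)).filter (fun p => p < 144)).card : ℝ) ≤ 144 := by
              exact_mod_cast hcard
            linarith
    · set S := ((Nat.primesBelow N).filter (fun p => ∀ i < J, p ∉ II y i)).filter (fun p : ℕ => ¬ p < 144) with hS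
      have hSm : ∀ p ∈ S, p ∈ Nat.primesBelow N ∧ y < (p:ℝ) ∧ 144 ≤ p := by
        intro p hp
        rw [hS, mem_filter, mem_filter] at hp
        refine ⟨hp.1.1, ?_, by omega⟩
        by_contra hcon
        push Not at hcon
        obtain ⟨i, hi, hpi⟩ := hB.cover (Nat.mem_primesBelow.mp hp.1.1).2 (by omega) hcon
        exact hp.1.2 i hi hpi
      have h1 : ∑ p ∈ S, v0 q p = ∑ p ∈ S, (3 * (1 / (p:ℝ)) + eq1 q p) := by
        refine sum_congr rfl fun p hp => ?_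
        unfold v0
        rw [if_neg (by have := (hSm p hp).2.2; omega)]
      rw [h1, sum_add_distrib, ← mul_sum]
      have h2 : ∑ p ∈ S, 1 / (p:ℝ) ≤ ∑ p ∈ (Nat.primesBelow N).filter (fun p : ℕ => y < (p:ℝ)), (1:ℝ) / p := by
        refine sum_le_sum_of_subset_of_nonneg (fun p hp => ?_) fun p _ _ => by positivity
        rw [mem_filter]; exact ⟨(hSm p hp).1, (hSm p hp).2.1⟩
      have h3 := hC2 y (by linarith) N L hL hN (by linarith)
      have h5 := heq S (fun p hp => (hSm p hp).1)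
      linarith
  -- blocks
  have F2 : ∏ i ∈ range J, ∑ j : Fin 5, Ag (RR Rs i) j * Real.exp (∑ p ∈ II y i, v1 a q p j) ≤
      Real.exp (∑ i ∈ range J, ∑ p ∈ II y i, v1 a q p 0) *
        Real.exp ((3 + 8 * Real.exp (25 * c)) * 2) := by
    calc _ ≤ ∏ i ∈ range J, (Real.exp (∑ p ∈ II y i, v1 a q p 0) *
        Real.exp ((3 + 8 * Real.exp (25 * c)) * Real.exp (-(RR Rs i:ℝ)))) := by
          refine prod_le_prod (fun i _ => sum_nonneg fun j _ => mul_nonneg (Ag_nonneg _ _) (Real.exp_pos _).le) ?_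
          intro i hi
          exact block_bound' ha (hB.rg.v i (mem_range.mp hi)) _
      _ = Real.exp (∑ i ∈ range J, ∑ p ∈ II y i, v1 a q p 0) *
          Real.exp ((3 + 8 * Real.exp (25 * c)) * ∑ i ∈ range J, Real.exp (-(RR Rs i:ℝ))) := by
          rw [prod_mul_distrib, ← Real.exp_sum, ← Real.exp_sum, mul_sum]
      _ ≤ _ := by
          refine mul_le_mul_of_nonneg_left (Real.exp_le_exp.mpr ?_) (Real.exp_pos _).le
          have h1 := sum_exp_le J Rs (RR_ge Rs)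
          have h2 : Real.exp (-(Rs:ℝ)) ≤ 1 := Real.exp_le_one_iff.mpr (by simp)
          refine mul_le_mul_of_nonneg_left (by linarith) (by positivity)
  set V := ∑ i ∈ range J, vI (II y i) with hV
  have F3 : ∑ i ∈ range J, ∑ p ∈ II y i, v1 a q p 0 ≤
      (3 * (Real.log (Real.log y) + c) + (4 * a + a ^ 2) * V) + CE := by
    have hy1 : 1 ≤ y := by linarith
    have e1 : ∑ i ∈ range J, ∑ p ∈ II y i, v1 a q p 0 = ∑ i ∈ range J, ∑ p ∈ II y i,
        ((3 + 4 * a + a ^ 2) * (1 / (p:ℝ))) + ∑ i ∈ range J, ∑ p ∈ II y i, eq1 q p := by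
      rw [← sum_add_distrib]
      refine sum_congr rfl fun i _ => ?_
      rw [← sum_add_distrib]
      refine sum_congr rfl fun p _ => ?_
      unfold v1
      rw [if_pos rfl]
    have e2 : ∑ i ∈ range J, ∑ p ∈ II y i, ((3 + 4 * a + a ^ 2) * (1 / (p:ℝ))) = (3 + 4 * a + a ^ 2) * V := by
      rw [hV, mul_sum]
      refine sum_congr rfl fun i _ => ?_
      unfold vI
      rw [mul_sum]
    have e3 : ∑ i ∈ range J, ∑ p ∈ II y i, eq1 q p = ∑ p ∈ PF y (bb y J), eq1 q p := sum_II hy1 _ J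
    have h8 : ∑ p ∈ PF y (bb y J), eq1 q p ≤ CE := by
      refine heq _ fun p hp => ?_
      rw [mem_PF (by linarith)] at hp
      rw [Nat.mem_primesBelow]
      refine ⟨?_, hp.1⟩
      have : (p:ℝ) < N := lt_of_le_of_lt hp.2.2.2 hyN
      exact_mod_cast this
    have h9 := (abs_le.mp hB.vv).2
    rw [e1, e2, e3]
    have h10 : V ≤ Real.log (Real.log y) + c := by linarith
    nlinarith
  have hL3 : L ^ 3 = Real.exp (3 * Real.log L) := by
    rw [mul_comm, Real.exp_mul, Real.exp_log (by linarith)]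
    norm_num
  have hlog3 : Real.log (3 * L) = Real.log 3 + Real.log L := Real.log_mul (by norm_num) (by linarith)
  calc _ ≤ Real.exp (6 * 144 + (3 * (Real.log (3 * L) - Real.log (Real.log y) + C2) + CE)) *
      (Real.exp ((3 * (Real.log (Real.log y) + c) + (4 * a + a ^ 2) * V) + CE) *
        Real.exp ((3 + 8 * Real.exp (25 * c)) * 2)) := by
        refine mul_le_mul (Real.exp_le_exp.mpr F1) (F2.trans ?_) ?_ (Real.exp_pos _).le
        · exact mul_le_mul_of_nonneg_right (Real.exp_le_exp.mpr F3) (Real.exp_pos _).le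
        · exact prod_nonneg fun i _ => sum_nonneg fun j _ => mul_nonneg (Ag_nonneg _ _) (Real.exp_pos _).le
    _ = _ := by
        unfold EV
        rw [hL3, ← Real.exp_add, ← Real.exp_add, ← Real.exp_add, ← Real.exp_add, hlog3]
        congr 1
        ring

end

end Pool.Agent.TH806.N4
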