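import Pool.Agent.TH806.N4.TA

set_option autoImplicit false

/-!
N4: the functional with the parameters `p^{-1/2}` at the primes of the multiplier factors.
-/

namespace Pool.Agent.TH806.N4

open Finset MeasureTheory Complex MonoidAlgebra
open Pool.Agent.W184.NZ
open Pool.Agent.TH806

noncomputable section

variable {N : ℕ}

/-- the local factor -/
def D4 (Q : Fin 4 → ℂ) (x : ℝ) : ℂ :=
  (1 - Q 0 * ec x)⁻¹ * (1 - Q 1 * ec x)⁻¹ * ((1 - Q 2 * ec (-x))⁻¹ * (1 - Q 3 * ec (-x))⁻¹)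

lemma D4_cont {Q : Fin 4 → ℂ} (hQ : ∀ j, ‖Q j‖ < 1) : Continuous (D4 Q) := by
  unfold D4
  exact ((geo_cont (hQ 0) continuous_id).mul (geo_cont (hQ 1) continuous_id)).mul
    ((geo_cont (hQ 2) continuous_neg).mul (geo_cont (hQ 3) continuous_neg))

lemma D4_bdd {Q : Fin 4 → ℂ} {r : ℝ} (hr : r < 1) (hQ : ∀ j, ‖Q j‖ ≤ r) (x : ℝ) : ‖D4 Q x‖ ≤ (1 - r)⁻¹ ^ 4 := by
  have h : ∀ (j : Fin 4) (t : ℝ), ‖(1 - Q j * ec t)⁻¹‖ ≤ (1 - r)⁻¹ := by
    intro j t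
    refine (geo_bdd (lt_of_le_of_lt (hQ j) hr) t).trans ?_
    exact inv_anti₀ (by linarith) (by linarith [hQ j])
  unfold D4
  rw [norm_mul, norm_mul, norm_mul]
  have h0 : 0 ≤ (1 - r)⁻¹ := inv_nonneg.mpr (by linarith)
  calc _ ≤ (1 - r)⁻¹ * (1 - r)⁻¹ * ((1 - r)⁻¹ * (1 - r)⁻¹) := by
        have := h 0 x; have := h 1 x; have := h 2 (-x); have := h 3 (-x)
        gcongr
    _ = _ := by ring

/-- the product over the primes -/
def TD (Q : Ix N → Fin 4 → ℂ) (θ : Ix N → ℝ) : ℂ := ∏ p : Ix N, D4 (Q p) (θ p)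

/-- the functional -/
def FT (Q : Ix N → Fin 4 → ℂ) (G : DA) : ℂ := ∫ θ, TD Q θ * evt θ G ∂(TT N)

lemma TD_cont {Q : Ix N → Fin 4 → ℂ} (hQ : ∀ p j, ‖Q p j‖ < 1) : Continuous (TD Q) := by
  unfold TD
  exact continuous_finsetProd _ fun p _ => (D4_cont (hQ p)).comp (continuous_apply p)

lemma TD_bdd {Q : Ix N → Fin 4 → ℂ} {r : ℝ} (hr : r < 1) (hQ : ∀ p j, ‖Q p j‖ ≤ r) (θ : Ix N → ℝ) :
    ‖TD Q θ‖ ≤ ∏ _p : Ix N, (1 - r)⁻¹ ^ 4 := by
  unfold TD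
  rw [norm_prod]
  exact prod_le_prod (fun _ _ => norm_nonneg _) fun p _ => D4_bdd hr (hQ p) _

/-- nonzero entries with all primes below `N` -/
def Nz (N : ℕ) (x : ℕ × ℕ) : Prop := x.1 ≠ 0 ∧ x.2 ≠ 0 ∧ ∀ p : ℕ, p.Prime → (p ∣ x.1 ∨ p ∣ x.2) → p < N

lemma prod_natAbs' {m n : ℕ} (hm : m ≠ 0) (hn : n ≠ 0) (hp : ∀ p : ℕ, p.Prime → (p ∣ m ∨ p ∣ n) → p < N) :
    (∏ p : Ix N, (p.1 : ℝ) ^ ((m.factorization p.1 : ℤ) - n.factorization p.1).natAbs) =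
      (m : ℝ) * n / (Nat.gcd m n : ℝ) ^ 2 := by
  have hg : Nat.gcd m n ≠ 0 := Nat.gcd_ne_zero_left hm
  have hg' : (Nat.gcd m n : ℝ) ^ 2 ≠ 0 := by positivity
  rw [eq_div_iff hg']
  have key : ∀ k : ℕ, k ≠ 0 → (∀ p : ℕ, p.Prime → p ∣ k → p < N) →
      (k : ℝ) = ∏ p : Ix N, (p.1 : ℝ) ^ (k.factorization p.1) := by
    intro k hk hkN
    have h1 : k = ∏ p ∈ Nat.primesBelow N, p ^ (k.factorization p) := by
      conv_lhs => rw [← Nat.prod_factorization_pow_eq_self hk]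
      rw [Finsupp.prod]
      refine prod_subset ?_ ?_
      · intro p hp
        have hp' := Nat.mem_primeFactors.mp (by simpa using hp)
        exact Nat.mem_primesBelow.mpr ⟨hkN p hp'.1 hp'.2.1, hp'.1⟩
      · intro p _ hp
        rw [Finsupp.notMem_support_iff] at hp
        rw [hp, pow_zero]
    have h2 : (k:ℝ) = ∏ p ∈ Nat.primesBelow N, (p : ℝ) ^ (k.factorization p) := by
      conv_lhs => rw [h1]
      push_cast; rfl
    rw [h2, ← Finset.prod_coe_sort (Nat.primesBelow N) (fun p => (p : ℝ) ^ (k.factorization p))]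
  conv_rhs => rw [key m hm (fun p h1 h2 => hp p h1 (Or.inl h2)), key n hn (fun p h1 h2 => hp p h1 (Or.inr h2))]
  rw [key _ hg (fun p h1 h2 => hp p h1 (Or.inl (h2.trans (Nat.gcd_dvd_left _ _)))), ← prod_pow,
    ← prod_mul_distrib, ← prod_mul_distrib]
  refine prod_congr rfl fun p _ => ?_
  rw [Nat.factorization_gcd hm hn, ← pow_mul, ← pow_add, ← pow_add]
  congr 1
  simp only [Finsupp.inf_apply]
  omega

/-- the exponent of one prime -/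
def mp (x : ℕ × ℕ) (p : ℕ) : ℤ := (x.1.factorization p : ℤ) - x.2.factorization p

lemma xh_prod {x : ℕ × ℕ} (hx : Nz N x) :
    (x.1 : ℂ) ^ (-(1 / 2) : ℂ) * (x.2 : ℂ) ^ (-(1 / 2) : ℂ) *
      ((∏ p : Ix N, xh p.1 ^ (mp x p.1).natAbs : ℝ) : ℂ) = (w1 x : ℂ) := by
  obtain ⟨h1, h2, h3⟩ := hx
  have e1 : (∏ p : Ix N, xh p.1 ^ (mp x p.1).natAbs : ℝ) =
      Real.exp (-(1 / 2) * Real.log ((x.1 : ℝ) * x.2 / (Nat.gcd x.1 x.2 : ℝ) ^ 2)) := by
    rw [← prod_natAbs' (N := N) h1 h2 h3]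
    rw [Real.log_prod (fun p _ => by have := ix_pos p; positivity), mul_sum, Real.exp_sum]
    refine prod_congr rfl fun p _ => ?_
    unfold xh mp
    rw [Real.log_pow, ← Real.exp_nat_mul]
    congr 1; ring
  rw [e1, natCast_half h1, natCast_half h2, ← Complex.ofReal_mul, ← Complex.ofReal_mul]
  congr 1
  have hg : Nat.gcd x.1 x.2 ≠ 0 := Nat.gcd_ne_zero_left h1
  have hx1 : 0 < (x.1 : ℝ) := by exact_mod_cast Nat.pos_of_ne_zero h1
  have hx2 : 0 < (x.2 : ℝ) := by exact_mod_cast Nat.pos_of_ne_zero h2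
  have hg' : 0 < (Nat.gcd x.1 x.2 : ℝ) := by exact_mod_cast Nat.pos_of_ne_zero hg
  unfold w1
  rw [← Real.exp_add, ← Real.exp_add, Real.log_div (by positivity) (by positivity), Real.log_mul hx1.ne' hx2.ne',
    Real.log_pow]
  have : -(1 / 2) * Real.log x.1 + -(1 / 2) * Real.log x.2 + -(1 / 2) * (Real.log x.1 + Real.log x.2 -
      ((2:ℕ):ℝ) * Real.log (Nat.gcd x.1 x.2)) = Real.log (Nat.gcd x.1 x.2) - (Real.log x.1 + Real.log x.2) := by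
    push_cast; ring
  rw [this, Real.exp_sub, Real.exp_add, Real.exp_log hg', Real.exp_log hx1, Real.exp_log hx2]

/-- the average of a monomial -/
lemma TD_mt (Q : Ix N → Fin 4 → ℂ) (x : ℕ × ℕ) :
    ∫ θ, TD Q θ * mt θ x ∂(TT N) = (x.1 : ℂ) ^ (-(1 / 2) : ℂ) * (x.2 : ℂ) ^ (-(1 / 2) : ℂ) *
      ∏ p : Ix N, ∫ t, ec ((mp x p.1 : ℝ) * t) * D4 (Q p) t ∂uu := by
  have h1 : ∀ θ : Ix N → ℝ, TD Q θ * mt θ x = (x.1 : ℂ) ^ (-(1 / 2) : ℂ) * (x.2 : ℂ) ^ (-(1 / 2) : ℂ) *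
      ∏ p : Ix N, (ec ((mp x p.1 : ℝ) * θ p) * D4 (Q p) (θ p)) := by
    intro θ
    rw [mt_apply]
    unfold chi TD
    rw [map_prod, ← prod_mul_distrib, prod_mul_distrib (f := fun p : Ix N => ec ((mp x p.1 : ℝ) * θ p))]
    have h2 : ∀ p : Ix N, ec ((x.1.factorization p.1 : ℝ) * θ p) *
        (starRingEnd ℂ) (ec ((x.2.factorization p.1 : ℝ) * θ p)) = ec ((mp x p.1 : ℝ) * θ p) := by
      intro p
      rw [ec_conj, ← ec_add]
      congr 1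
      unfold mp
      push_cast; ring
    rw [prod_congr rfl fun p _ => h2 p]
    ring
  simp_rw [h1]
  rw [integral_const_mul]
  congr 1
  unfold TT
  rw [integral_fintype_prod_eq_prod (𝕜 := ℂ) (f := fun (p : Ix N) (t : ℝ) => ec ((mp x p.1 : ℝ) * t) * D4 (Q p) t)]

lemma D4_real {p : ℕ} (Q : Fin 4 → ℂ) (hQ : ∀ j, Q j = ((xh p : ℝ) : ℂ)) (t : ℝ) :
    D4 Q t = ((‖(1 - ((xh p : ℝ) : ℂ) * ec t)⁻¹‖ ^ 4 : ℝ) : ℂ) := by
  unfold D4
  rw [hQ 0, hQ 1, hQ 2, hQ 3]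
  set w := (1 - ((xh p : ℝ) : ℂ) * ec t)⁻¹ with hw
  have h1 : (1 - ((xh p : ℝ) : ℂ) * ec (-t))⁻¹ = (starRingEnd ℂ) w := by
    rw [hw, map_inv₀, map_sub, map_one, map_mul, Complex.conj_ofReal, ec_conj]
  rw [h1]
  have h2 : w * (starRingEnd ℂ) w = ((‖w‖ ^ 2 : ℝ) : ℂ) := by
    rw [Complex.mul_conj, Complex.normSq_eq_norm_sq]
  calc w * w * ((starRingEnd ℂ) w * (starRingEnd ℂ) w) = (w * (starRingEnd ℂ) w) ^ 2 := by ring
    _ = _ := by rw [h2]; push_cast; ring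

/-- the ratio of the Fourier coefficients -/
lemma D4_ratio (hD : P_D4) {p : ℕ} (hp : 2 ≤ p) (Q : Fin 4 → ℂ) (hQ : ∀ j, Q j = ((xh p : ℝ) : ℂ)) (m : ℤ) :
    ∫ t, ec ((m : ℝ) * t) * D4 Q t ∂uu = ((xh p ^ m.natAbs * q4 p m : ℝ) : ℂ) * ∫ t, D4 Q t ∂uu := by
  have hx0 := xh_pos p
  have hx1 := xh_two hp
  have h0 := hD (xh p) hx0.le (by linarith) 0
  have h1 := hD (xh p) hx0.le (by linarith) m
  simp_rw [← D4_real (p := p) Q hQ] at h0 h1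
  have e0 : ∀ t : ℝ, ec (((0:ℤ):ℝ) * t) * D4 Q t = D4 Q t := by
    intro t; rw [Int.cast_zero, zero_mul, ec_zero, one_mul]
  simp_rw [e0] at h0
  rw [h1, h0]
  have hs : xh p ^ 2 = 1 / (p:ℝ) := xh_sq (by omega)
  have hp0 : (2:ℝ) ≤ p := by exact_mod_cast hp
  rw [← Complex.ofReal_mul]
  congr 1
  unfold q4
  rw [hs]
  have h2 : (1:ℝ) - 1 / p ≠ 0 := by
    have : (1:ℝ) / p ≤ 1 / 2 := by gcongr
    linarith
  simp only [Int.natAbs_zero, pow_zero, Nat.cast_zero, zero_mul, add_zero, one_mul]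
  have h3 : (p:ℝ) ≠ 0 := by positivity
  have h4 : (p:ℝ) + 1 ≠ 0 := by positivity
  have h5 : (p:ℝ) - 1 ≠ 0 := by linarith
  field_simp

/-- the functional factors at the point where all parameters are `p^{-1/2}` -/
theorem FT_van (hD : P_D4) {Q : Ix N → Fin 4 → ℂ} (hQ1 : ∀ p j, ‖Q p j‖ < 1) {G : DA}
    (hG : ∀ x ∈ G.coeff.support, Nz N x)
    (hQ : ∀ x ∈ G.coeff.support, ∀ p : Ix N, (p.1 ∣ x.1 ∨ p.1 ∣ x.2) → ∀ j, Q p j = ((xh p.1 : ℝ) : ℂ)) :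
    FT Q G = (lam w2 G : ℂ) * FT Q 1 := by
  have hone : FT Q 1 = ∏ p : Ix N, ∫ t, D4 (Q p) t ∂uu := by
    unfold FT TD TT
    simp_rw [map_one, mul_one]
    rw [integral_fintype_prod_eq_prod (𝕜 := ℂ) (f := fun (p : Ix N) (t : ℝ) => D4 (Q p) t)]
  have hx : ∀ x ∈ G.coeff.support, ∫ θ, TD Q θ * mt θ x ∂(TT N) = (w2 x : ℂ) * FT Q 1 := by
    intro x hxs
    have hNz := hG x hxs
    rw [TD_mt, hone]
    have h1 : ∀ p : Ix N, ∫ t, ec ((mp x p.1 : ℝ) * t) * D4 (Q p) t ∂uu =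
        ((xh p.1 ^ (mp x p.1).natAbs : ℝ) : ℂ) * ((q4 p.1 (mp x p.1) : ℝ) : ℂ) * ∫ t, D4 (Q p) t ∂uu := by
      intro p
      by_cases hd : p.1 ∣ x.1 ∨ p.1 ∣ x.2
      · rw [D4_ratio hD (ix_two p) (Q p) (hQ x hxs p hd) (mp x p.1), Complex.ofReal_mul]
      · push Not at hd
        have hm : mp x p.1 = 0 := by
          unfold mp
          rw [Nat.factorization_eq_zero_of_not_dvd hd.1, Nat.factorization_eq_zero_of_not_dvd hd.2]
          simp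
        rw [hm]
        simp [q4, ec_zero]
    rw [prod_congr rfl fun p _ => h1 p, prod_mul_distrib, prod_mul_distrib, ← Complex.ofReal_prod,
      ← mul_assoc, ← mul_assoc, xh_prod hNz]
    have h2 : (∏ p : Ix N, ((q4 p.1 (mp x p.1) : ℝ) : ℂ)) =
        ((∏ p ∈ (x.1 * x.2).primeFactors, q4 p ((x.1.factorization p : ℤ) - x.2.factorization p) : ℝ) : ℂ) := by
      rw [← Complex.ofReal_prod, Finset.prod_coe_sort (Nat.primesBelow N) (fun p => q4 p (mp x p))]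
      congr 1
      symm
      refine prod_subset ?_ ?_
      · intro p hp
        rw [Nat.mem_primeFactors] at hp
        rw [Nat.mem_primesBelow]
        exact ⟨hNz.2.2 p hp.1 ((Nat.Prime.dvd_mul hp.1).mp hp.2.1), hp.1⟩
      · intro p hp hnp
        have hpp := (Nat.mem_primesBelow.mp hp).2
        have hnd : ¬ (p ∣ x.1 * x.2) := by
          intro h
          exact hnp (Nat.mem_primeFactors.mpr ⟨hpp, h, mul_ne_zero hNz.1 hNz.2.1⟩)
        have hn1 : ¬ p ∣ x.1 := fun h => hnd (h.mul_right _)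
        have hn2 : ¬ p ∣ x.2 := fun h => hnd (h.mul_left _)
        have hm : ((x.1.factorization p : ℤ) - x.2.factorization p) = 0 := by
          rw [Nat.factorization_eq_zero_of_not_dvd hn1, Nat.factorization_eq_zero_of_not_dvd hn2]
          simp
        rw [hm]
        simp [q4]
    rw [h2]
    unfold w2
    rw [Complex.ofReal_mul]
  have hev : ∀ θ : Ix N → ℝ, TD Q θ * evt θ G = ∑ x ∈ G.coeff.support, (G.coeff x : ℂ) * (TD Q θ * mt θ x) := by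
    intro θ
    rw [evt_apply, mul_sum]
    refine sum_congr rfl fun x _ => ?_
    ring
  have hint : ∀ x ∈ G.coeff.support, Integrable (fun θ => (G.coeff x : ℂ) * (TD Q θ * mt θ x)) (TT N) := by
    intro x hxs
    refine Integrable.const_mul ?_ _
    have hNz := hG x hxs
    refine Integrable.of_bound (C := ∏ p : Ix N, ((1 - ‖Q p 0‖)⁻¹ * (1 - ‖Q p 1‖)⁻¹ * ((1 - ‖Q p 2‖)⁻¹ * (1 - ‖Q p 3‖)⁻¹)))
      ((TD_cont hQ1).mul (mt_cont x)).aestronglyMeasurable (Filter.Eventually.of_forall fun θ => ?_)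
    rw [norm_mul]
    have h1 := mt_norm_le θ hNz.1 hNz.2.1
    have h2 : ‖TD Q θ‖ ≤ ∏ p : Ix N, ((1 - ‖Q p 0‖)⁻¹ * (1 - ‖Q p 1‖)⁻¹ * ((1 - ‖Q p 2‖)⁻¹ * (1 - ‖Q p 3‖)⁻¹)) := by
      unfold TD
      rw [norm_prod]
      refine prod_le_prod (fun _ _ => norm_nonneg _) fun p _ => ?_
      unfold D4
      rw [norm_mul, norm_mul, norm_mul]
      have g0 := geo_bdd (hQ1 p 0) (θ p)
      have g1 := geo_bdd (hQ1 p 1) (θ p)
      have g2 := geo_bdd (hQ1 p 2) (-(θ p))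
      have g3 := geo_bdd (hQ1 p 3) (-(θ p))
      have k0 : 0 ≤ (1 - ‖Q p 0‖)⁻¹ := (norm_nonneg _).trans g0
      have k2 : 0 ≤ (1 - ‖Q p 2‖)⁻¹ := (norm_nonneg _).trans g2
      have k1 : 0 ≤ (1 - ‖Q p 1‖)⁻¹ := (norm_nonneg _).trans g1
      exact mul_le_mul (mul_le_mul g0 g1 (norm_nonneg _) k0) (mul_le_mul g2 g3 (norm_nonneg _) k2)
        (mul_nonneg (norm_nonneg _) (norm_nonneg _)) (mul_nonneg k0 k1)
    calc ‖TD Q θ‖ * ‖mt θ x‖ ≤ ‖TD Q θ‖ * 1 := mul_le_mul_of_nonneg_left h1 (norm_nonneg _)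
      _ ≤ _ := by rw [mul_one]; exact h2
  unfold FT
  simp_rw [hev]
  rw [integral_finsetSum _ hint]
  have h3 : lam w2 G = ∑ x ∈ G.coeff.support, G.coeff x * w2 x := by
    rw [lam_apply, Finsupp.sum]
  rw [h3, Complex.ofReal_sum, sum_mul]
  refine sum_congr rfl fun x hxs => ?_
  rw [integral_const_mul, hx x hxs, Complex.ofReal_mul]
  unfold FT
  ring

end

end Pool.Agent.TH806.N4
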